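import Pool.Agent.Helper20_Rom.Pairs

set_option autoImplicit false

/-!
High moments of the medium primes factor.
-/

namespace Pool.Agent.Helper20_Rom

open Finset Pool.Agent.Common_Sieve

/-- `p` divides `h (3h-1) (3h+1)` -/
def PD (p : ℕ) (n : ℤ) : Prop := (p : ℤ) ∣ DD n

instance (p : ℕ) (n : ℤ) : Decidable (PD p n) := by unfold PD; infer_instance

lemma PD_per (p : ℕ) (n : ℤ) : PD p (n + p) ↔ PD p n := by
  unfold PD DD
  have e : (n + p) * ((3 * (n + p) - 1) * (3 * (n + p) + 1))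
      = n * ((3 * n - 1) * (3 * n + 1)) + (27 * n ^ 2 + 27 * n * p + 9 * p ^ 2 - 1) * (p : ℤ) := by
    ring
  rw [e]
  exact dvd_add_left (Dvd.intro_left _ rfl)

lemma cnt_PD {p : ℕ} (hp : p.Prime) (h5 : 5 ≤ p) : cnt PD p ≤ 3 := by
  have hn3 : ¬ (p : ℤ) ∣ 3 := by
    intro hd
    have := Int.le_of_dvd (by norm_num) hd
    omega
  have hn1 : ¬ (p : ℤ) ∣ 1 := by
    intro hd
    have := Int.le_of_dvd (by norm_num) hd
    omega
  have h1 := card_dvd_one hp 1 0 hn1
  have h2 := card_dvd_one hp 3 (-1) hn3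
  have h3 := card_dvd_one hp 3 1 hn3
  have hsub : (range p).filter (fun r : ℕ => PD p (r : ℤ)) ⊆
      (range p).filter (fun r : ℕ => (p : ℤ) ∣ 1 * r + 0) ∪
      ((range p).filter (fun r : ℕ => (p : ℤ) ∣ 3 * r + (-1)) ∪
        (range p).filter (fun r : ℕ => (p : ℤ) ∣ 3 * r + 1)) := by
    intro r hr
    obtain ⟨hr1, hr2⟩ := Finset.mem_filter.1 hr
    simp only [Finset.mem_union, Finset.mem_filter]
    unfold PD DD at hr2
    have hpi := Nat.prime_iff_prime_int.1 hp
    rcases hpi.dvd_or_dvd hr2 with h | h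
    · left; exact ⟨hr1, by simpa using h⟩
    · rcases hpi.dvd_or_dvd h with h | h
      · right; left; exact ⟨hr1, by rw [← sub_eq_add_neg]; exact h⟩
      · right; right; exact ⟨hr1, h⟩
  have h4 := Finset.card_le_card hsub
  have h5 := Finset.card_union_le ((range p).filter (fun r : ℕ => (p : ℤ) ∣ 1 * r + 0))
      ((range p).filter (fun r : ℕ => (p : ℤ) ∣ 3 * r + (-1)) ∪
        (range p).filter (fun r : ℕ => (p : ℤ) ∣ 3 * r + 1))
  have h6 := Finset.card_union_le ((range p).filter (fun r : ℕ => (p : ℤ) ∣ 3 * r + (-1)))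
        ((range p).filter (fun r : ℕ => (p : ℤ) ∣ 3 * r + 1))
  unfold cnt
  omega

/-- the medium primes -/
def II (y u : ℕ) : Finset ℕ := (Nat.primesLE u).filter (fun p => y < p)

lemma TT'_eq (y u : ℕ) (h : ℤ) :
    TT' y u h = ∏ p ∈ II y u, (if (p : ℤ) ∣ DD h then 1 + (3:ℝ) / p else 1) := by
  unfold TT' II
  rw [← Finset.prod_filter, Finset.filter_filter]

lemma TT'_pow_le {y u s : ℕ} (hy : 18 * s ≤ y) (hy1 : 1 ≤ y) (h : ℤ) :
    TT' y u h ^ s ≤ ∏ p ∈ II y u, (1 + (6 * s / p : ℝ) * (if PD p h then 1 else 0)) := by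
  rw [TT'_eq, ← Finset.prod_pow]
  apply Finset.prod_le_prod
  · intro p _
    apply pow_nonneg
    split_ifs
    · exact zero_le_one.trans (one_add_ge p)
    · norm_num
  · intro p hp
    have hyp : y < p := (Finset.mem_filter.1 hp).2
    by_cases hd : (p : ℤ) ∣ DD h
    · have hd' : PD p h := hd
      rw [if_pos hd, if_pos hd', mul_one]
      have hp0 : (0:ℝ) < p := by exact_mod_cast (by omega : 0 < p)
      have h1 : 3 * (s:ℝ) / p ≤ 1 := by
        rw [div_le_one hp0]
        exact_mod_cast (by omega : 3 * s ≤ p)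
      have h0 : 0 ≤ 3 * (s:ℝ) / p := by positivity
      have h2 : (1 + (3:ℝ) / p) ^ s ≤ Real.exp (3 * (s:ℝ) / p) := by
        calc (1 + (3:ℝ) / p) ^ s ≤ (Real.exp (3 / p)) ^ s := by
              apply pow_le_pow_left₀ (zero_le_one.trans (one_add_ge p))
              linarith [Real.add_one_le_exp (3 / (p:ℝ))]
          _ = Real.exp (3 * (s:ℝ) / p) := by
              rw [← Real.exp_nat_mul]; congr 1; ring
      have h3 : Real.exp (3 * (s:ℝ) / p) ≤ 1 + 2 * (3 * (s:ℝ) / p) := by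
        have h4 := Real.abs_exp_sub_one_le (x := 3 * (s:ℝ) / p) (by rw [abs_of_nonneg h0]; exact h1)
        rw [abs_of_nonneg h0] at h4
        have h5 := le_abs_self (Real.exp (3 * (s:ℝ) / p) - 1)
        linarith
      calc (1 + (3:ℝ) / p) ^ s ≤ 1 + 2 * (3 * (s:ℝ) / p) := h2.trans h3
        _ = 1 + 6 * s / p := by ring
    · have hd' : ¬ PD p h := hd
      rw [if_neg hd, if_neg hd', mul_zero, add_zero, one_pow]

lemma moment {y u s N : ℕ} (hy : 18 * s ≤ y) (hs : 1 ≤ s) (hu : (2:ℝ) ^ u ≤ N) :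
    ∑ h ∈ Finset.Ioc (0:ℤ) (0 + N), TT' y u h ^ s ≤ 4 * N := by
  have hy18 : 18 ≤ y := by omega
  have hI : ∀ p ∈ II y u, p.Prime ∧ y < p ∧ p ≤ u := by
    intro p hp
    obtain ⟨h1, h2⟩ := Finset.mem_filter.1 hp
    exact ⟨(Nat.mem_primesLE.1 h1).2, h2, (Nat.mem_primesLE.1 h1).1⟩
  have hsy : (18:ℝ) * s ≤ y := by exact_mod_cast hy
  have hs0 : (1:ℝ) ≤ s := by exact_mod_cast hs
  have hy0 : (0:ℝ) < y := by exact_mod_cast (by omega : 0 < y)
  have h1 : ∑ h ∈ Finset.Ioc (0:ℤ) (0 + N), TT' y u h ^ s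
      ≤ ∑ h ∈ Finset.Ioc (0:ℤ) (0 + N),
        ∏ p ∈ II y u, (1 + (6 * s / p : ℝ) * (if PD p h then 1 else 0)) :=
    Finset.sum_le_sum (fun h _ => TT'_pow_le hy (by omega) h)
  refine h1.trans ?_
  have h2 : ∀ h ∈ Finset.Ioc (0:ℤ) (0 + N),
      ∏ p ∈ II y u, (1 + (6 * s / p : ℝ) * (if PD p h then 1 else 0))
      = ∑ E ∈ (II y u).powerset, ∏ p ∈ E, ((6 * s / p : ℝ) * (if PD p h then 1 else 0)) :=
    fun h _ => Finset.prod_one_add (II y u)
  rw [Finset.sum_congr rfl h2, Finset.sum_comm]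
  have h3 : ∀ E ∈ (II y u).powerset, ∑ h ∈ Finset.Ioc (0:ℤ) (0 + N),
      ∏ p ∈ E, ((6 * s / p : ℝ) * (if PD p h then 1 else 0))
      ≤ N * ∏ p ∈ E, (18 * s / p ^ 2 : ℝ) + ∏ p ∈ E, (18 * s / p : ℝ) := by
    intro E hE
    have hEI : E ⊆ II y u := Finset.mem_powerset.1 hE
    have h4 := count_crt PD PD_per E (fun p hp => (hI p (hEI hp)).1) 0 N
    have h5 : ∑ h ∈ Finset.Ioc (0:ℤ) (0 + N),
        ∏ p ∈ E, ((6 * s / p : ℝ) * (if PD p h then 1 else 0))
        = (∏ p ∈ E, (6 * s / p : ℝ)) *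
          (((Finset.Ioc (0:ℤ) (0 + N)).filter (fun n => ∀ p ∈ E, PD p n)).card : ℝ) := by
      rw [Finset.card_filter]
      push_cast
      rw [Finset.mul_sum]
      apply Finset.sum_congr rfl
      intro h _
      rw [Finset.prod_mul_distrib, Finset.prod_boole]
    rw [h5]
    have hcnt : ∀ p ∈ E, (cnt PD p : ℝ) ≤ 3 := by
      intro p hp
      have := hI p (hEI hp)
      exact_mod_cast cnt_PD this.1 (by omega)
    have h6 : (((Finset.Ioc (0:ℤ) (0 + N)).filter (fun n => ∀ p ∈ E, PD p n)).card : ℝ)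
        ≤ N * ∏ p ∈ E, ((3:ℝ) / p) + ∏ p ∈ E, (3:ℝ) := by
      have h7 := (abs_le.1 h4).2
      have h8 : ∏ p ∈ E, ((cnt PD p : ℝ) / p) ≤ ∏ p ∈ E, ((3:ℝ) / p) := by
        apply Finset.prod_le_prod
        · intro p _; positivity
        · intro p hp
          exact div_le_div_of_nonneg_right (hcnt p hp) (by positivity)
      have h9 : ∏ p ∈ E, (cnt PD p : ℝ) ≤ ∏ p ∈ E, (3:ℝ) := by
        apply Finset.prod_le_prod
        · intro p _; positivity
        · exact hcnt
      have h10 : (N:ℝ) * ∏ p ∈ E, ((cnt PD p : ℝ) / p) ≤ N * ∏ p ∈ E, ((3:ℝ) / p) :=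
        mul_le_mul_of_nonneg_left h8 (by positivity)
      linarith
    have h11 : 0 ≤ ∏ p ∈ E, (6 * s / p : ℝ) := Finset.prod_nonneg (fun p _ => by positivity)
    refine (mul_le_mul_of_nonneg_left h6 h11).trans (le_of_eq ?_)
    rw [mul_add, mul_left_comm, ← Finset.prod_mul_distrib, ← Finset.prod_mul_distrib]
    congr 1
    · congr 1
      apply Finset.prod_congr rfl
      intro p _
      ring
    · apply Finset.prod_congr rfl
      intro p _
      ring
  refine (Finset.sum_le_sum h3).trans ?_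
  rw [Finset.sum_add_distrib, ← Finset.mul_sum, ← Finset.prod_one_add, ← Finset.prod_one_add]
  have h7 : ∏ p ∈ II y u, (1 + (18 * s / p ^ 2 : ℝ)) ≤ 3 := by
    calc ∏ p ∈ II y u, (1 + (18 * s / p ^ 2 : ℝ))
        ≤ ∏ p ∈ II y u, Real.exp (18 * s / p ^ 2 : ℝ) := by
          apply Finset.prod_le_prod
          · intro p _; positivity
          · intro p _
            linarith [Real.add_one_le_exp (18 * s / p ^ 2 : ℝ)]
      _ = Real.exp (∑ p ∈ II y u, (18 * s / p ^ 2 : ℝ)) := by rw [Real.exp_sum]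
      _ ≤ Real.exp 1 := by
          rw [Real.exp_le_exp]
          rcases Nat.lt_or_ge u y with huy | huy
          · have : II y u = ∅ := by
              rw [Finset.eq_empty_iff_forall_notMem]
              intro p hp
              have := hI p hp
              omega
            rw [this]
            simp
          · have e1 : ∑ p ∈ II y u, (18 * s / p ^ 2 : ℝ)
                ≤ ∑ p ∈ Finset.Ioc y u, (18 * s / p ^ 2 : ℝ) := by
              apply Finset.sum_le_sum_of_subset_of_nonneg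
              · intro p hp
                have := hI p hp
                rw [Finset.mem_Ioc]
                exact ⟨this.2.1, this.2.2⟩
              · intro p _ _; positivity
            have e2 := sum_Ioc_inv_sq_le_sub (α := ℝ) (k := y) (n := u) (by omega) huy
            have e3 : ∑ p ∈ Finset.Ioc y u, (18 * s / p ^ 2 : ℝ)
                = 18 * s * ∑ p ∈ Finset.Ioc y u, ((p:ℝ) ^ 2)⁻¹ := by
              rw [Finset.mul_sum]
              apply Finset.sum_congr rfl
              intro p _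
              rw [div_eq_mul_inv]
            have e4 : (0:ℝ) ≤ (u:ℝ)⁻¹ := by positivity
            have e5 : 18 * (s:ℝ) * ∑ p ∈ Finset.Ioc y u, ((p:ℝ) ^ 2)⁻¹ ≤ 18 * s * (y:ℝ)⁻¹ := by
              apply mul_le_mul_of_nonneg_left _ (by positivity)
              linarith
            have e6 : 18 * (s:ℝ) * (y:ℝ)⁻¹ ≤ 1 := by
              rw [← div_eq_mul_inv, div_le_one hy0]
              exact hsy
            linarith
      _ ≤ 3 := by linarith [Real.exp_one_lt_d9]
  have h8 : ∏ p ∈ II y u, (1 + (18 * s / p : ℝ)) ≤ N := by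
    calc ∏ p ∈ II y u, (1 + (18 * s / p : ℝ)) ≤ ∏ p ∈ II y u, (2:ℝ) := by
          apply Finset.prod_le_prod
          · intro p _; positivity
          · intro p hp
            have h9 := hI p hp
            have h10 : (y:ℝ) ≤ p := by exact_mod_cast h9.2.1.le
            have : (18 * s / p : ℝ) ≤ 1 := by
              rw [div_le_one (by linarith)]
              linarith
            linarith
      _ = 2 ^ (II y u).card := by rw [Finset.prod_const]
      _ ≤ 2 ^ u := by
          apply pow_le_pow_right₀ (by norm_num)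
          have h9 : II y u ⊆ Finset.Ioc 0 u := by
            intro p hp
            have := hI p hp
            rw [Finset.mem_Ioc]
            omega
          calc (II y u).card ≤ (Finset.Ioc 0 u).card := Finset.card_le_card h9
            _ = u := by simp
      _ ≤ N := hu
  have hN : (0:ℝ) ≤ N := by positivity
  nlinarith

lemma TT'_neg (y u : ℕ) (h : ℤ) : TT' y u (-h) = TT' y u h := by
  have : DD (-h) = - DD h := by unfold DD; ring
  unfold TT'
  rw [this]
  simp only [dvd_neg]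

lemma row {y u s N : ℕ} (hy : 18 * s ≤ y) (hs : 1 ≤ s) (hu : (2:ℝ) ^ u ≤ N) (m' : ℕ)
    (hm' : m' ∈ Finset.Icc 1 N) :
    ∑ m ∈ (Finset.Icc 1 N).filter (fun m => m ≠ m'), TT' y u ((m:ℤ) - m') ^ s ≤ 8 * N := by
  have h0 := moment hy hs hu
  obtain ⟨hm1, hm2⟩ := Finset.mem_Icc.1 hm'
  have hnn : ∀ h : ℤ, 0 ≤ TT' y u h ^ s := fun h =>
    pow_nonneg (zero_le_one.trans (TT'_ge_one y u h)) s
  have hsplit : (Finset.Icc 1 N).filter (fun m => m ≠ m')
      = (Finset.Icc 1 N).filter (fun m => m' < m) ∪ (Finset.Icc 1 N).filter (fun m => m < m') := by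
    ext m
    simp only [Finset.mem_filter, Finset.mem_union, Finset.mem_Icc]
    omega
  rw [hsplit, Finset.sum_union]
  · have h1 : ∑ m ∈ (Finset.Icc 1 N).filter (fun m => m' < m), TT' y u ((m:ℤ) - m') ^ s
        ≤ ∑ h ∈ Finset.Ioc (0:ℤ) (0 + N), TT' y u h ^ s := by
      have e := Finset.sum_image (s := (Finset.Icc 1 N).filter (fun m => m' < m))
        (g := fun m : ℕ => (m:ℤ) - m') (f := fun h => TT' y u h ^ s)
        (by intro a _ b _ hab; simp only at hab; omega)
      rw [← e]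
      apply Finset.sum_le_sum_of_subset_of_nonneg
      · intro x hx
        obtain ⟨m, hm, rfl⟩ := Finset.mem_image.1 hx
        obtain ⟨h2, h3⟩ := Finset.mem_filter.1 hm
        have := Finset.mem_Icc.1 h2
        rw [Finset.mem_Ioc]
        omega
      · intro x _ _; exact hnn x
    have h2 : ∑ m ∈ (Finset.Icc 1 N).filter (fun m => m < m'), TT' y u ((m:ℤ) - m') ^ s
        ≤ ∑ h ∈ Finset.Ioc (0:ℤ) (0 + N), TT' y u h ^ s := by
      have e0 : ∑ m ∈ (Finset.Icc 1 N).filter (fun m => m < m'), TT' y u ((m:ℤ) - m') ^ s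
          = ∑ m ∈ (Finset.Icc 1 N).filter (fun m => m < m'), TT' y u ((m':ℤ) - m) ^ s := by
        apply Finset.sum_congr rfl
        intro m _
        rw [← TT'_neg, neg_sub]
      have e := Finset.sum_image (s := (Finset.Icc 1 N).filter (fun m => m < m'))
        (g := fun m : ℕ => (m':ℤ) - m) (f := fun h => TT' y u h ^ s)
        (by intro a _ b _ hab; simp only at hab; omega)
      rw [e0, ← e]
      apply Finset.sum_le_sum_of_subset_of_nonneg
      · intro x hx
        obtain ⟨m, hm, rfl⟩ := Finset.mem_image.1 hx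
        obtain ⟨h2, h3⟩ := Finset.mem_filter.1 hm
        have := Finset.mem_Icc.1 h2
        rw [Finset.mem_Ioc]
        omega
      · intro x _ _; exact hnn x
    linarith
  · rw [Finset.disjoint_left]
    intro m h1 h2
    have := (Finset.mem_filter.1 h1).2
    have := (Finset.mem_filter.1 h2).2
    omega

/-- average of the medium primes factor over a dense set of differences -/
theorem double {y u s N : ℕ} (hy : 18 * s ≤ y) (hs : 1 ≤ s) (hu : (2:ℝ) ^ u ≤ N)
    (B : Finset ℕ) (hB : B ⊆ Finset.Icc 1 N) (hNs : (N:ℝ) ≤ Real.exp s * B.card) :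
    ∑ x ∈ (B ×ˢ B).filter (fun x => x.1 ≠ x.2), TT' y u ((x.1:ℤ) - x.2)
      ≤ 60 * (B.card : ℝ) ^ 2 := by
  set X := (B ×ˢ B).filter (fun x => x.1 ≠ x.2) with hX
  obtain ⟨n, rfl⟩ : ∃ n, s = n + 1 := ⟨s - 1, by omega⟩
  have hnn : ∀ h : ℤ, 0 ≤ TT' y u h := fun h => zero_le_one.trans (TT'_ge_one y u h)
  have hpm := pow_sum_div_card_le_sum_pow (s := X) (f := fun x => TT' y u ((x.1:ℤ) - x.2))
    (fun x _ => hnn _) n
  have hsum : ∑ x ∈ X, TT' y u ((x.1:ℤ) - x.2) ^ (n + 1) ≤ 8 * (N:ℝ) ^ 2 := by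
    have e1 : ∑ x ∈ X, TT' y u ((x.1:ℤ) - x.2) ^ (n + 1)
        ≤ ∑ x ∈ ((Finset.Icc 1 N) ×ˢ (Finset.Icc 1 N)).filter (fun x => x.1 ≠ x.2),
          TT' y u ((x.1:ℤ) - x.2) ^ (n + 1) := by
      apply Finset.sum_le_sum_of_subset_of_nonneg
      · intro x hx
        obtain ⟨h1, h2⟩ := Finset.mem_filter.1 hx
        obtain ⟨h3, h4⟩ := Finset.mem_product.1 h1
        exact Finset.mem_filter.2 ⟨Finset.mem_product.2 ⟨hB h3, hB h4⟩, h2⟩
      · intro x _ _; exact pow_nonneg (hnn _) _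
    refine e1.trans ?_
    rw [Finset.sum_filter, Finset.sum_product_right]
    calc _ ≤ ∑ m' ∈ Finset.Icc 1 N, 8 * (N:ℝ) := by
          apply Finset.sum_le_sum
          intro m' hm'
          rw [← Finset.sum_filter]
          exact row hy hs hu m' hm'
      _ = 8 * (N:ℝ) ^ 2 := by
          rw [Finset.sum_const, Nat.card_Icc, nsmul_eq_mul]
          simp only [Nat.add_sub_cancel]
          ring
  have hXc : (X.card : ℝ) ≤ (B.card : ℝ) ^ 2 := by
    have h1 : X.card ≤ (B ×ˢ B).card := Finset.card_filter_le _ _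
    rw [Finset.card_product] at h1
    have h2 : (X.card : ℝ) ≤ ((B.card * B.card : ℕ) : ℝ) := by exact_mod_cast h1
    rw [pow_two]
    push_cast at h2
    exact h2
  rcases Nat.eq_zero_or_pos X.card with h0 | h0
  · have : X = ∅ := Finset.card_eq_zero.1 h0
    rw [this, Finset.sum_empty]
    positivity
  · set W := ∑ x ∈ X, TT' y u ((x.1:ℤ) - x.2) with hW
    have hXp : (0:ℝ) < X.card := by exact_mod_cast h0
    have h1 : W ^ (n + 1) ≤ (X.card : ℝ) ^ n * (8 * (N:ℝ) ^ 2) := by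
      have h2 := hpm.trans hsum
      rw [div_le_iff₀ (by positivity)] at h2
      linarith
    have hb0 : (0:ℝ) < (B.card : ℝ) ^ 2 := lt_of_lt_of_le hXp hXc
    have h3 : W ^ (n + 1) ≤ (60 * (B.card : ℝ) ^ 2) ^ (n + 1) := by
      refine h1.trans ?_
      have e1 : (X.card : ℝ) ^ n ≤ ((B.card : ℝ) ^ 2) ^ n := pow_le_pow_left₀ hXp.le hXc n
      have e2 : (N:ℝ) ^ 2 ≤ (Real.exp ((n + 1 : ℕ) : ℝ) * B.card) ^ 2 :=
        pow_le_pow_left₀ (by positivity) hNs 2
      have e3 : (Real.exp ((n + 1 : ℕ) : ℝ)) = (Real.exp 1) ^ (n + 1) := by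
        rw [← Real.exp_nat_mul, mul_one]
      rw [e3] at e2
      have e4 : 8 * (Real.exp 1 ^ (n + 1)) ^ 2 ≤ 60 ^ (n + 1) := by
        have e5 : Real.exp 1 ^ 2 ≤ 7.4 := by
          have h9 : Real.exp 1 ≤ 2.72 := by linarith [Real.exp_one_lt_d9]
          calc Real.exp 1 ^ 2 ≤ 2.72 ^ 2 := pow_le_pow_left₀ (Real.exp_pos _).le h9 2
            _ ≤ 7.4 := by norm_num
        calc 8 * (Real.exp 1 ^ (n + 1)) ^ 2 = 8 * (Real.exp 1 ^ 2) ^ (n + 1) := by
              rw [← pow_mul, ← pow_mul, mul_comm (n + 1) 2]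
          _ ≤ 8 ^ (n + 1) * (7.4:ℝ) ^ (n + 1) := by
              apply mul_le_mul _ (pow_le_pow_left₀ (by positivity) e5 _) (by positivity)
                (by positivity)
              exact le_self_pow₀ (by norm_num) (by omega)
          _ = (8 * 7.4) ^ (n + 1) := by rw [mul_pow]
          _ ≤ 60 ^ (n + 1) := by
              apply pow_le_pow_left₀ (by norm_num)
              norm_num
      calc (X.card : ℝ) ^ n * (8 * (N:ℝ) ^ 2)
          ≤ ((B.card : ℝ) ^ 2) ^ n * (8 * (Real.exp 1 ^ (n + 1) * B.card) ^ 2) := by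
            apply mul_le_mul e1 _ (by positivity) (by positivity)
            linarith
        _ = (8 * (Real.exp 1 ^ (n + 1)) ^ 2) * ((B.card : ℝ) ^ 2) ^ (n + 1) := by
            rw [mul_pow (Real.exp 1 ^ (n + 1))]; ring
        _ ≤ 60 ^ (n + 1) * ((B.card : ℝ) ^ 2) ^ (n + 1) :=
            mul_le_mul_of_nonneg_right e4 (by positivity)
        _ = _ := by rw [mul_pow]
    exact le_of_pow_le_pow_left₀ (by omega) (by positivity) h3

end Pool.Agent.Helper20_Rom
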