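import Pool.Agent.Helper20_Rom.Quad
import Pool.Agent.Helper20_Rom.Moment

set_option autoImplicit false

/-!
The two index sets, the energy, and the small primes factor.
-/

namespace Pool.Agent.Helper20_Rom

open Finset Pool.Agent.Common_Sieve

/-- `k <= N` with `6k-1, 6k+1` both prime -/
def fA (N : ℕ) : Finset ℕ :=
  (range (N + 1)).filter (fun k => 0 < k ∧ (6 * k - 1).Prime ∧ (6 * k + 1).Prime)

/-- `m <= N` with `p_m + 2` prime -/
noncomputable def fB (N : ℕ) : Finset ℕ :=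
  (range (N + 1)).filter (fun m => 0 < m ∧ (Nat.nth Nat.Prime (m - 1) + 2).Prime)

lemma mem_fA {N k : ℕ} : k ∈ fA N ↔ 0 < k ∧ k ≤ N ∧ (6 * k - 1).Prime ∧ (6 * k + 1).Prime := by
  unfold fA
  rw [Finset.mem_filter, Finset.mem_range]
  constructor
  · rintro ⟨h1, h2, h3⟩; exact ⟨h2, by omega, h3⟩
  · rintro ⟨h1, h2, h3⟩; exact ⟨by omega, h1, h3⟩

lemma mem_fB {N m : ℕ} : m ∈ fB N ↔ 0 < m ∧ m ≤ N ∧ (Nat.nth Nat.Prime (m - 1) + 2).Prime := by
  unfold fB
  rw [Finset.mem_filter, Finset.mem_range]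
  constructor
  · rintro ⟨h1, h2, h3⟩; exact ⟨h2, by omega, h3⟩
  · rintro ⟨h1, h2, h3⟩; exact ⟨by omega, h1, h3⟩

lemma pi_small {N : ℕ} (hN : 4 ^ 24 ≤ N) : Nat.primeCounting (6 * N) ≤ N := by
  have hNr : (4:ℝ) ^ 24 ≤ N := by exact_mod_cast hN
  set x : ℝ := ((6 * N : ℕ) : ℝ) with hx
  have hx6 : x = 6 * N := by rw [hx]; push_cast; ring
  have hx1 : (4:ℝ) ^ 24 ≤ x := by rw [hx6]; linarith
  have h1 : 1 < x := lt_of_lt_of_le (by norm_num) hx1
  have h2 := Chebyshev.pi_le_log4_mul_div h1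
  have hfl : ⌊x⌋₊ = 6 * N := by rw [hx, Nat.floor_natCast]
  rw [hfl] at h2
  have hl4 : 0 < Real.log 4 := Real.log_pos (by norm_num)
  have h3 : 12 * Real.log 4 ≤ Real.log √x := by
    rw [Real.log_sqrt (by linarith)]
    have h4 := Real.log_le_log (by positivity) hx1
    rw [Real.log_pow] at h4
    push_cast at h4
    linarith
  have h5 : Real.log 4 * x / Real.log √x ≤ x / 12 := by
    rw [div_le_div_iff₀ (by linarith) (by norm_num)]
    nlinarith
  have h6 : √x ≤ x / 12 := by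
    have h7 : (12:ℝ) ≤ √x := by
      apply Real.le_sqrt_of_sq_le
      exact le_trans (by norm_num) hx1
    have h8 : √x * √x = x := Real.mul_self_sqrt (by linarith)
    nlinarith
  have h9 : (Nat.primeCounting (6 * N) : ℝ) ≤ N := by linarith
  exact_mod_cast h9

lemma nth_pi {q : ℕ} (hq : q.Prime) : Nat.nth Nat.Prime (Nat.primeCounting q - 1) = q := by
  have h1 : Nat.primeCounting q = Nat.count Nat.Prime q + 1 := by
    rw [Nat.primeCounting_eq_primeCounting'_succ, Nat.primeCounting', Nat.count_succ, if_pos hq]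
  rw [h1, Nat.add_sub_cancel]
  exact Nat.nth_count hq

/-- for large `N` there are at least as many `m` as `k` -/
lemma card_fA_le {N : ℕ} (hN : 4 ^ 24 ≤ N) : (fA N).card ≤ (fB N).card := by
  apply Finset.card_le_card_of_injOn (fun k => Nat.primeCounting (6 * k - 1))
  · intro k hk
    obtain ⟨h1, h2, h3, h4⟩ := mem_fA.1 (Finset.mem_coe.1 hk)
    apply Finset.mem_coe.2
    apply mem_fB.2
    have h5 : 0 < Nat.primeCounting (6 * k - 1) := by
      rw [Nat.primeCounting_eq_primeCounting'_succ, Nat.primeCounting', Nat.count_succ, if_pos h3]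
      omega
    refine ⟨h5, ?_, ?_⟩
    · exact (Nat.monotone_primeCounting (by omega)).trans (pi_small hN)
    · simp only
      rw [nth_pi h3]
      have : 6 * k - 1 + 2 = 6 * k + 1 := by omega
      rw [this]
      exact h4
  · intro i hi j hj hij
    obtain ⟨h1, h2, h3, h4⟩ := mem_fA.1 (Finset.mem_coe.1 hi)
    obtain ⟨g1, g2, g3, g4⟩ := mem_fA.1 (Finset.mem_coe.1 hj)
    simp only at hij
    have e1 := nth_pi h3
    rw [hij, nth_pi g3] at e1
    omega

lemma one_mem_fA {N : ℕ} (hN : 1 ≤ N) : 1 ∈ fA N := by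
  rw [mem_fA]
  exact ⟨by norm_num, hN, by norm_num, by norm_num⟩

/-- number of representations from `A × B` -/
def rr (A B : Finset ℕ) (n : ℕ) : ℕ := ((A ×ˢ B).filter (fun x => x.1 + x.2 = n)).card

lemma rr_sum (A B : Finset ℕ) (S : Finset ℕ) (h : ∀ x ∈ A ×ˢ B, x.1 + x.2 ∈ S) :
    ∑ n ∈ S, rr A B n = A.card * B.card := by
  unfold rr
  rw [← Finset.card_product, Finset.card_eq_sum_card_fiberwise (f := fun x : ℕ × ℕ => x.1 + x.2)
    (s := A ×ˢ B) (t := S) (fun x hx => h x hx)]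

lemma rr_le (A B : Finset ℕ) (k m : ℕ) :
    rr A B (k + m) = ∑ m' ∈ B, (A.filter (fun k' => k' + m' = k + m)).card := by
  unfold rr
  rw [Finset.card_filter, Finset.sum_product_right]
  apply Finset.sum_congr rfl
  intro m' _
  rw [Finset.card_filter]

/-- the additive energy -/
lemma energy (A B S : Finset ℕ) (h : ∀ x ∈ A ×ˢ B, x.1 + x.2 ∈ S) :
    ∑ n ∈ S, (rr A B n) ^ 2
      ≤ ∑ y ∈ B ×ˢ B, (A.filter (fun k => ∃ k' ∈ A, k' + y.2 = k + y.1)).card := by
  have h1 : ∑ n ∈ S, (rr A B n) ^ 2 = ∑ x ∈ A ×ˢ B, rr A B (x.1 + x.2) := by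
    rw [← Finset.sum_fiberwise_of_maps_to (g := fun x : ℕ × ℕ => x.1 + x.2) (t := S)
      (fun x hx => h x hx)]
    apply Finset.sum_congr rfl
    intro n _
    have h2 : ∑ x ∈ (A ×ˢ B).filter (fun x => x.1 + x.2 = n), rr A B (x.1 + x.2)
        = ∑ x ∈ (A ×ˢ B).filter (fun x => x.1 + x.2 = n), rr A B n := by
      apply Finset.sum_congr rfl
      intro x hx
      rw [(Finset.mem_filter.1 hx).2]
    rw [h2, Finset.sum_const, smul_eq_mul, pow_two]
    rfl
  rw [h1, Finset.sum_product_right, Finset.sum_product]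
  apply Finset.sum_le_sum
  intro m hm
  have h3 : ∑ k ∈ A, rr A B ((k, m).1 + (k, m).2)
      = ∑ m' ∈ B, ∑ k ∈ A, (A.filter (fun k' => k' + m' = k + m)).card := by
    rw [Finset.sum_comm]
    apply Finset.sum_congr rfl
    intro k _
    exact rr_le A B k m
  rw [h3]
  apply Finset.sum_le_sum
  intro m' _
  rw [Finset.card_filter (fun k => ∃ k' ∈ A, k' + (m, m').2 = k + (m, m').1) A]
  apply Finset.sum_le_sum
  intro k _
  split_ifs with hex
  · rw [Finset.card_le_one]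
    intro a ha b hb
    have := (Finset.mem_filter.1 ha).2
    have := (Finset.mem_filter.1 hb).2
    omega
  · have : A.filter (fun k' => k' + m' = k + m) = ∅ := by
      rw [Finset.filter_eq_empty_iff]
      intro k' hk' he
      exact hex ⟨k', hk', he⟩
    rw [this]
    simp

/-- Mertens -/
lemma MM_le : ∃ C : ℝ, 0 < C ∧ ∀ y : ℕ, 1 ≤ y → MM y ≤ C * Real.log (y + 1) := by
  obtain ⟨C, hC⟩ := Common_Mertens.sum_inv_le
  refine ⟨Real.exp (C + 2), Real.exp_pos _, ?_⟩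
  intro y hy
  have h1 := hC y hy
  have hpt : ∀ p ∈ Nat.primesLE y, (1 - (1:ℝ) / p)⁻¹
      ≤ Real.exp ((1:ℝ) / p + 2 * ((p:ℝ) ^ 2)⁻¹) := by
    intro p hp
    have hpp := (Nat.mem_primesLE.1 hp).2
    have hp2 : (2:ℝ) ≤ p := by exact_mod_cast hpp.two_le
    obtain ⟨x, hx⟩ : ∃ x : ℝ, x = 1 / p := ⟨_, rfl⟩
    have hx0 : 0 < x := by rw [hx]; positivity
    have hx2 : x ≤ 1 / 2 := by rw [hx]; exact one_div_le_one_div_of_le (by norm_num) hp2
    have e1 : ((p:ℝ) ^ 2)⁻¹ = x ^ 2 := by rw [hx]; field_simp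
    rw [e1, ← hx]
    have e2 := Real.add_one_le_exp (x + 2 * x ^ 2)
    refine le_trans ?_ e2
    rw [inv_le_iff_one_le_mul₀ (by linarith)]
    have e3 : (x + 2 * x ^ 2 + 1) * (1 - x) = 1 + x ^ 2 * (1 - 2 * x) := by ring
    rw [e3]
    have : 0 ≤ x ^ 2 * (1 - 2 * x) := mul_nonneg (sq_nonneg x) (by linarith)
    linarith
  have h2 : MM y ≤ Real.exp (∑ p ∈ Nat.primesLE y, ((1:ℝ) / p + 2 * ((p:ℝ) ^ 2)⁻¹)) := by
    unfold MM
    rw [Real.exp_sum]
    apply Finset.prod_le_prod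
    · intro p hp
      exact zero_le_one.trans (inv_ge_one (Nat.mem_primesLE.1 hp).2)
    · exact hpt
  have h3 : ∑ p ∈ Nat.primesLE y, ((p:ℝ) ^ 2)⁻¹ ≤ 1 := by
    have e1 : ∑ p ∈ Nat.primesLE y, ((p:ℝ) ^ 2)⁻¹ ≤ ∑ p ∈ Finset.Ioc 1 y, ((p:ℝ) ^ 2)⁻¹ := by
      apply Finset.sum_le_sum_of_subset_of_nonneg
      · intro p hp
        have h5 := Nat.mem_primesLE.1 hp
        rw [Finset.mem_Ioc]
        exact ⟨h5.2.one_lt, h5.1⟩
      · intro p _ _; positivity
    have e2 := sum_Ioc_inv_sq_le_sub (α := ℝ) (k := 1) (n := y) (by norm_num) hy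
    have e3 : (0:ℝ) ≤ (y:ℝ)⁻¹ := by positivity
    rw [Nat.cast_one, inv_one] at e2
    linarith
  rw [Finset.sum_add_distrib, ← Finset.mul_sum] at h2
  have hy1 : (1:ℝ) ≤ y := by exact_mod_cast hy
  have hly : 0 < Real.log (y + 1) := Real.log_pos (by linarith)
  calc MM y ≤ Real.exp (∑ p ∈ Nat.primesLE y, (1:ℝ) / p
        + 2 * ∑ p ∈ Nat.primesLE y, ((p:ℝ) ^ 2)⁻¹) := h2
    _ ≤ Real.exp (Real.log (Real.log (y + 1)) + (C + 2)) := by
        rw [Real.exp_le_exp]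
        linarith
    _ = Real.exp (C + 2) * Real.log (y + 1) := by
        rw [Real.exp_add, Real.exp_log hly]; ring

end Pool.Agent.Helper20_Rom
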