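import Pool.Agent.Helper20_Rom.Count

set_option autoImplicit false

/-!
Romanoff type theorem for sums of indices of twin primes.
-/

namespace Pool.Agent.Helper20_Rom

open Finset Pool.Agent.Common_Sieve

/-- Cauchy-Schwarz: many `n` have at least half the average number of representations -/
lemma many (A B : Finset ℕ) (N : ℕ) (hN : 0 < N) (hA : ∀ k ∈ A, 1 ≤ k ∧ k ≤ N)
    (hB : ∀ m ∈ B, 1 ≤ m ∧ m ≤ N) (E : ℝ)
    (hE : ∑ n ∈ Finset.Icc 1 (2 * N), ((rr A B n : ℝ)) ^ 2 ≤ E) (hE0 : 0 < E) :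
    ((A.card : ℝ) * B.card) ^ 2 / (4 * E) ≤
      (((Finset.Icc 1 (2 * N)).filter
        (fun n => (A.card : ℝ) * B.card / (4 * N) ≤ (rr A B n : ℝ))).card : ℝ) := by
  set S := Finset.Icc 1 (2 * N) with hS
  set G := S.filter (fun n => (A.card : ℝ) * B.card / (4 * N) ≤ (rr A B n : ℝ)) with hG
  have hmem : ∀ x ∈ A ×ˢ B, x.1 + x.2 ∈ S := by
    intro x hx
    obtain ⟨h1, h2⟩ := Finset.mem_product.1 hx
    have := hA _ h1
    have := hB _ h2
    rw [hS, Finset.mem_Icc]
    omega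
  have hsum : ∑ n ∈ S, (rr A B n : ℝ) = (A.card : ℝ) * B.card := by
    exact_mod_cast rr_sum A B S hmem
  have hNr : (0:ℝ) < N := by exact_mod_cast hN
  have hscard : (S.card : ℝ) = 2 * N := by
    rw [hS, Nat.card_Icc]
    push_cast
    simp
  have hbad : ∑ n ∈ S.filter (fun n => ¬ (A.card : ℝ) * B.card / (4 * N) ≤ (rr A B n : ℝ)),
      (rr A B n : ℝ) ≤ (A.card : ℝ) * B.card / 2 := by
    calc _ ≤ ∑ n ∈ S.filter (fun n => ¬ (A.card : ℝ) * B.card / (4 * N) ≤ (rr A B n : ℝ)),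
          (A.card : ℝ) * B.card / (4 * N) := by
          apply Finset.sum_le_sum
          intro n hn
          exact (not_le.1 (Finset.mem_filter.1 hn).2).le
      _ = ((S.filter (fun n => ¬ (A.card : ℝ) * B.card / (4 * N) ≤ (rr A B n : ℝ))).card : ℝ)
          * ((A.card : ℝ) * B.card / (4 * N)) := by rw [Finset.sum_const, nsmul_eq_mul]
      _ ≤ (S.card : ℝ) * ((A.card : ℝ) * B.card / (4 * N)) := by
          apply mul_le_mul_of_nonneg_right _ (by positivity)
          exact_mod_cast Finset.card_filter_le _ _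
      _ = (A.card : ℝ) * B.card / 2 := by
          rw [hscard]
          field_simp
          ring
  have hsplit := Finset.sum_filter_add_sum_filter_not S
    (fun n => (A.card : ℝ) * B.card / (4 * N) ≤ (rr A B n : ℝ)) (fun n => (rr A B n : ℝ))
  rw [hsum] at hsplit
  have hgood : (A.card : ℝ) * B.card / 2 ≤ ∑ n ∈ G, (rr A B n : ℝ) := by
    rw [hG]
    linarith
  have hcs := Finset.sum_mul_sq_le_sq_mul_sq G (fun _ => (1:ℝ)) (fun n => (rr A B n : ℝ))
  simp only [one_mul, one_pow, Finset.sum_const, nsmul_eq_mul, mul_one] at hcs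
  have hGE : ∑ n ∈ G, (rr A B n : ℝ) ^ 2 ≤ E := by
    refine le_trans ?_ hE
    apply Finset.sum_le_sum_of_subset_of_nonneg (Finset.filter_subset _ _)
    intro n _ _
    positivity
  have h1 : ((A.card : ℝ) * B.card / 2) ^ 2 ≤ (G.card : ℝ) * E := by
    calc ((A.card : ℝ) * B.card / 2) ^ 2 ≤ (∑ n ∈ G, (rr A B n : ℝ)) ^ 2 :=
          pow_le_pow_left₀ (by positivity) hgood 2
      _ ≤ (G.card : ℝ) * ∑ n ∈ G, (rr A B n : ℝ) ^ 2 := hcs
      _ ≤ _ := mul_le_mul_of_nonneg_left hGE (by positivity)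
  rw [div_le_iff₀ (by positivity)]
  linarith

/-- bound for the energy -/
lemma energy_le : ∃ C : ℝ, 0 < C ∧ ∃ N₀ : ℕ, ∀ N : ℕ, N₀ ≤ N →
    ∑ n ∈ Finset.Icc 1 (2 * N), ((rr (fA N) (fB N) n : ℝ)) ^ 2
      ≤ (fA N).card * (fB N).card
        + C * (N * Real.log (2 + Real.log (N / (fB N).card)) ^ 2 * ((fB N).card : ℝ) ^ 2
          / Real.log N ^ 4) := by
  obtain ⟨C, hC, N₁, hq⟩ := quad
  obtain ⟨C1, hC1, hM⟩ := MM_le
  refine ⟨C * (60 * (6 * C1) ^ 2), by positivity, max N₁ 3, ?_⟩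
  intro N hN
  have hN1 : N₁ ≤ N := le_trans (le_max_left _ _) hN
  have hN3 : 3 ≤ N := le_trans (le_max_right _ _) hN
  have hNr : (3:ℝ) ≤ N := by exact_mod_cast hN3
  set A := fA N with hAdef
  set B := fB N with hBdef
  have hAm : ∀ k ∈ A, 1 ≤ k ∧ k ≤ N := by
    intro k hk
    have := mem_fA.1 hk
    exact ⟨this.1, this.2.1⟩
  have hBm : ∀ m ∈ B, 1 ≤ m ∧ m ≤ N := by
    intro k hk
    have := mem_fB.1 hk
    exact ⟨this.1, this.2.1⟩
  have hBsub : B ⊆ Finset.Icc 1 N := fun m hm => Finset.mem_Icc.2 (hBm m hm)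
  have h2B : 2 ∈ B := by
    rw [hBdef, mem_fB]
    refine ⟨by norm_num, by omega, ?_⟩
    rw [show 2 - 1 = 1 by norm_num, Nat.nth_prime_one_eq_three]
    norm_num
  have hb0 : 0 < B.card := Finset.card_pos.2 ⟨2, h2B⟩
  have hbr : (1:ℝ) ≤ B.card := by exact_mod_cast hb0
  have hbN : (B.card : ℝ) ≤ N := by
    have := Finset.card_le_card hBsub
    rw [Nat.card_Icc, Nat.add_sub_cancel] at this
    exact_mod_cast this
  have hratio : 1 ≤ (N:ℝ) / B.card := by
    rw [le_div_iff₀ (by linarith)]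
    linarith
  have hl0 : 0 ≤ Real.log ((N:ℝ) / B.card) := Real.log_nonneg hratio
  set l := Real.log ((N:ℝ) / B.card) with hl
  set L := Real.log (2 + l) with hL
  set s := ⌈l⌉₊ + 1 with hs
  set y := 18 * s with hy
  have hlogN : 0 < Real.log N := Real.log_pos (by linarith)
  set u := ⌊Real.log N⌋₊ with hu
  have hu2 : (2:ℝ) ^ u ≤ N := by
    calc (2:ℝ) ^ u ≤ Real.exp 1 ^ u := by
          apply pow_le_pow_left₀ (by norm_num)
          have := Real.add_one_le_exp (1:ℝ)
          linarith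
      _ = Real.exp u := by rw [← Real.exp_nat_mul, mul_one]
      _ ≤ Real.exp (Real.log N) := by
          rw [Real.exp_le_exp]
          exact Nat.floor_le hlogN.le
      _ = N := Real.exp_log (by linarith)
  have hsl : l ≤ (s:ℝ) := by
    have := Nat.le_ceil l
    rw [hs]; push_cast; linarith
  have hsu : (s:ℝ) ≤ l + 2 := by
    have := Nat.ceil_lt_add_one hl0
    rw [hs]; push_cast; linarith
  have hNs : (N:ℝ) ≤ Real.exp s * B.card := by
    have h1 : (N:ℝ) / B.card ≤ Real.exp s := by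
      rw [← Real.exp_log (show 0 < (N:ℝ) / B.card by positivity), Real.exp_le_exp]
      exact hsl
    rwa [div_le_iff₀ (by linarith)] at h1
  have hd := double (y := y) (u := u) (s := s) (N := N) le_rfl (by omega) hu2 B hBsub hNs
  -- MM y
  have hL0 : Real.log 2 ≤ L := Real.log_le_log (by norm_num) (by linarith)
  have hlog2 : 0.69 < Real.log 2 := by
    have := Real.log_two_gt_d9
    linarith
  have hMy : MM y ≤ 6 * C1 * L := by
    have h1 := hM y (by omega)
    have h2 : ((y:ℕ):ℝ) + 1 ≤ 19 * (2 + l) := by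
      rw [hy]; push_cast; linarith
    have h3 : Real.log ((y:ℝ) + 1) ≤ Real.log 19 + L := by
      rw [hL, ← Real.log_mul (by norm_num) (by linarith)]
      exact Real.log_le_log (by positivity) h2
    have h4 : Real.log 19 ≤ 3 := by
      rw [Real.log_le_iff_le_exp (by norm_num)]
      have h5 : Real.exp 3 = Real.exp 1 ^ 3 := by rw [← Real.exp_nat_mul]; norm_num
      rw [h5]
      have h6 : (2.7182818283 : ℝ) ≤ Real.exp 1 := Real.exp_one_gt_d9.le
      calc (19:ℝ) ≤ 2.7182818283 ^ 3 := by norm_num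
        _ ≤ _ := pow_le_pow_left₀ (by norm_num) h6 3
    have h7 : Real.log ((y:ℝ) + 1) ≤ 6 * L := by linarith
    calc MM y ≤ C1 * Real.log (y + 1) := h1
      _ ≤ C1 * (6 * L) := mul_le_mul_of_nonneg_left h7 hC1.le
      _ = _ := by ring
  have hMM1 := MM_ge_one y
  -- the energy
  have hmem : ∀ x ∈ A ×ˢ B, x.1 + x.2 ∈ Finset.Icc 1 (2 * N) := by
    intro x hx
    obtain ⟨h1, h2⟩ := Finset.mem_product.1 hx
    have := hAm _ h1
    have := hBm _ h2
    rw [Finset.mem_Icc]
    omega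
  have hen := energy A B (Finset.Icc 1 (2 * N)) hmem
  have hen' : ∑ n ∈ Finset.Icc 1 (2 * N), ((rr A B n : ℝ)) ^ 2
      ≤ ∑ x ∈ B ×ˢ B, ((A.filter (fun k => ∃ k' ∈ A, k' + x.2 = k + x.1)).card : ℝ) := by
    exact_mod_cast hen
  refine hen'.trans ?_
  rw [← Finset.sum_filter_add_sum_filter_not (B ×ˢ B) (fun x => x.1 = x.2)]
  have hdiag : ∑ x ∈ (B ×ˢ B).filter (fun x => x.1 = x.2),
      ((A.filter (fun k => ∃ k' ∈ A, k' + x.2 = k + x.1)).card : ℝ) ≤ A.card * B.card := by
    calc _ ≤ ∑ x ∈ (B ×ˢ B).filter (fun x => x.1 = x.2), (A.card : ℝ) := by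
          apply Finset.sum_le_sum
          intro x _
          exact_mod_cast Finset.card_filter_le _ _
      _ = (((B ×ˢ B).filter (fun x => x.1 = x.2)).card : ℝ) * A.card := by
          rw [Finset.sum_const, nsmul_eq_mul]
      _ ≤ (B.card : ℝ) * A.card := by
          apply mul_le_mul_of_nonneg_right _ (by positivity)
          have : ((B ×ˢ B).filter (fun x => x.1 = x.2)).card ≤ B.card := by
            apply Finset.card_le_card_of_injOn (fun x => x.1)
            · intro x hx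
              exact Finset.mem_coe.2
                (Finset.mem_product.1 (Finset.mem_filter.1 (Finset.mem_coe.1 hx)).1).1
            · intro x hx x' hx' he
              have e1 := (Finset.mem_filter.1 (Finset.mem_coe.1 hx)).2
              have e2 := (Finset.mem_filter.1 (Finset.mem_coe.1 hx')).2
              simp only at he
              ext
              · exact he
              · rw [← e1, ← e2, he]
          exact_mod_cast this
      _ = _ := by ring
  have hoff : ∑ x ∈ (B ×ˢ B).filter (fun x => ¬ x.1 = x.2),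
      ((A.filter (fun k => ∃ k' ∈ A, k' + x.2 = k + x.1)).card : ℝ)
      ≤ C * N / Real.log N ^ 4 * (6 * C1 * L) ^ 2 * (60 * (B.card : ℝ) ^ 2) := by
    calc _ ≤ ∑ x ∈ (B ×ˢ B).filter (fun x => ¬ x.1 = x.2),
          C * N / Real.log N ^ 4 * (6 * C1 * L) ^ 2 * TT' y u ((x.1:ℤ) - x.2) := by
          apply Finset.sum_le_sum
          intro x hx
          obtain ⟨h1, h2⟩ := Finset.mem_filter.1 hx
          obtain ⟨h3, h4⟩ := Finset.mem_product.1 h1
          have g1 := hBm _ h3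
          have g2 := hBm _ h4
          have h5 := hq N hN1 ((x.1:ℤ) - x.2) (by omega) (by rw [abs_le]; omega) y
            (A.filter (fun k => ∃ k' ∈ A, k' + x.2 = k + x.1)) (by
              intro k hk
              obtain ⟨hk1, k', hk2, hk3⟩ := Finset.mem_filter.1 hk
              have a1 := mem_fA.1 hk1
              have a2 := mem_fA.1 hk2
              exact ⟨a1.1, a1.2.1, a1.2.2.1, a1.2.2.2, k', a2.1, by omega, a2.2.2.1, a2.2.2.2⟩)
          refine h5.trans ?_
          apply mul_le_mul_of_nonneg_right _ (zero_le_one.trans (TT'_ge_one _ _ _))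
          apply mul_le_mul_of_nonneg_left _ (by positivity)
          exact pow_le_pow_left₀ (by linarith) hMy 2
      _ = C * N / Real.log N ^ 4 * (6 * C1 * L) ^ 2
          * ∑ x ∈ (B ×ˢ B).filter (fun x => ¬ x.1 = x.2), TT' y u ((x.1:ℤ) - x.2) := by
          rw [Finset.mul_sum]
      _ ≤ _ := by
          apply mul_le_mul_of_nonneg_left hd (by positivity)
  calc _ ≤ (A.card : ℝ) * B.card
        + C * N / Real.log N ^ 4 * (6 * C1 * L) ^ 2 * (60 * (B.card : ℝ) ^ 2) :=
        add_le_add hdiag hoff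
    _ = _ := by ring

/-- the main bound -/
theorem main : ∃ c : ℝ, 0 < c ∧ ∃ N₀ : ℕ, ∀ N : ℕ, N₀ ≤ N →
    1 ≤ (fA N).card ∧ (fA N).card ≤ (fB N).card ∧
    c * (((fA N).card : ℝ) ^ 2 * Real.log N ^ 4
        / (N * Real.log (2 + Real.log (N / (fB N).card)) ^ 2)) ≤
      (((Finset.Icc 1 (2 * N)).filter
        (fun n => ((fA N).card : ℝ) * (fB N).card / (4 * N)
          ≤ (rr (fA N) (fB N) n : ℝ))).card : ℝ) := by
  obtain ⟨C, hC, N₁, hen⟩ := energy_le
  refine ⟨1 / (4 * (C + 800)), by positivity, max N₁ (4 ^ 24), ?_⟩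
  intro N hN
  have hN1 : N₁ ≤ N := le_trans (le_max_left _ _) hN
  have hN2 : 4 ^ 24 ≤ N := le_trans (le_max_right _ _) hN
  have hNbig : 3 ≤ N := le_trans (by norm_num) hN2
  have hNr : (3:ℝ) ≤ N := by exact_mod_cast hNbig
  have ha1 : 1 ≤ (fA N).card := Finset.card_pos.2 ⟨1, one_mem_fA (by omega)⟩
  have hab := card_fA_le hN2
  refine ⟨ha1, hab, ?_⟩
  have hE := hen N hN1
  set A := fA N
  set B := fB N
  have har : (1:ℝ) ≤ A.card := by exact_mod_cast ha1
  have habr : (A.card : ℝ) ≤ B.card := by exact_mod_cast hab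
  have hbr : (1:ℝ) ≤ B.card := har.trans habr
  have hbN : (B.card : ℝ) ≤ N := by
    have hBsub : B ⊆ Finset.Icc 1 N := fun m hm => Finset.mem_Icc.2
      ⟨(mem_fB.1 hm).1, (mem_fB.1 hm).2.1⟩
    have := Finset.card_le_card hBsub
    rw [Nat.card_Icc, Nat.add_sub_cancel] at this
    exact_mod_cast this
  have hratio : 1 ≤ (N:ℝ) / B.card := by
    rw [le_div_iff₀ (by linarith)]
    linarith
  have hl0 : 0 ≤ Real.log ((N:ℝ) / B.card) := Real.log_nonneg hratio
  have hlogN : 0 < Real.log N := Real.log_pos (by linarith)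
  set L := Real.log (2 + Real.log ((N:ℝ) / B.card)) with hL
  have hlog2 : 0.69 < Real.log 2 := by
    have := Real.log_two_gt_d9
    linarith
  have hL0 : 0.69 < L := lt_of_lt_of_le hlog2 (Real.log_le_log (by norm_num) (by linarith))
  -- (log N)^4 <= 256 N
  have hlog4 : Real.log N ^ 4 ≤ 256 * N := by
    have h5 : Real.log N ≤ 4 * (N:ℝ) ^ (1 / 4 : ℝ) := by
      have := Real.log_le_rpow_div (by linarith : (0:ℝ) ≤ N) (show (0:ℝ) < 1 / 4 by norm_num)
      linarith
    calc Real.log N ^ 4 ≤ (4 * (N:ℝ) ^ (1 / 4 : ℝ)) ^ 4 := pow_le_pow_left₀ hlogN.le h5 4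
      _ = 256 * ((N:ℝ) ^ (1 / 4 : ℝ)) ^ 4 := by rw [mul_pow]; norm_num
      _ = 256 * N := by
          rw [← Real.rpow_natCast, ← Real.rpow_mul (by linarith)]
          norm_num
  have hdiag : (A.card : ℝ) * B.card ≤ 800 * (N * L ^ 2 * (B.card : ℝ) ^ 2 / Real.log N ^ 4) := by
    have h1 : (A.card : ℝ) * B.card ≤ (B.card : ℝ) ^ 2 := by nlinarith
    refine h1.trans ?_
    rw [← mul_div_assoc, le_div_iff₀ (by positivity)]
    have h2 : 256 ≤ 800 * L ^ 2 := by nlinarith
    calc (B.card : ℝ) ^ 2 * Real.log N ^ 4 ≤ (B.card : ℝ) ^ 2 * (256 * N) :=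
          mul_le_mul_of_nonneg_left hlog4 (by positivity)
      _ = 256 * (N * (B.card : ℝ) ^ 2) := by ring
      _ ≤ (800 * L ^ 2) * (N * (B.card : ℝ) ^ 2) :=
          mul_le_mul_of_nonneg_right h2 (by positivity)
      _ = _ := by ring
  set Q : ℝ := N * L ^ 2 * (B.card : ℝ) ^ 2 / Real.log N ^ 4 with hQ
  have hQ0 : 0 < Q := by positivity
  have hE2 : ∑ n ∈ Finset.Icc 1 (2 * N), ((rr A B n : ℝ)) ^ 2 ≤ (C + 800) * Q := by
    refine hE.trans ?_
    linarith
  have hfin := many A B N (by omega)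
    (fun k hk => ⟨(mem_fA.1 hk).1, (mem_fA.1 hk).2.1⟩)
    (fun m hm => ⟨(mem_fB.1 hm).1, (mem_fB.1 hm).2.1⟩) ((C + 800) * Q) hE2 (by positivity)
  refine le_trans (le_of_eq ?_) hfin
  rw [hQ]
  field_simp

end Pool.Agent.Helper20_Rom
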