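import Pool.Agent.Helper20_Rom.Final

set_option autoImplicit false

/-!
Transfer to `Set.ncard`.
-/

namespace Pool.Agent.Helper20_Rom

open Finset

/-- admissible decompositions -/
def Adm' (n k m : ℕ) : Prop :=
  0 < k ∧ 0 < m ∧ k + m = n ∧ Nat.Prime (6 * k - 1) ∧ Nat.Prime (6 * k + 1) ∧
    Nat.Prime (Nat.nth Nat.Prime (m - 1) + 2)

lemma ncard_A (N : ℕ) :
    {k : ℕ | 0 < k ∧ k ≤ N ∧ Nat.Prime (6 * k - 1) ∧ Nat.Prime (6 * k + 1)}.ncard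
      = (fA N).card := by
  rw [← Set.ncard_coe_finset]
  congr 1
  ext k
  simp only [Set.mem_ofPred_eq, Finset.mem_coe]
  rw [mem_fA]

lemma ncard_B (N : ℕ) :
    {m : ℕ | 0 < m ∧ m ≤ N ∧ Nat.Prime (Nat.nth Nat.Prime (m - 1) + 2)}.ncard
      = (fB N).card := by
  rw [← Set.ncard_coe_finset]
  congr 1
  ext k
  simp only [Set.mem_ofPred_eq, Finset.mem_coe]
  rw [mem_fB]

lemma rr_le_ncard (N n : ℕ) :
    rr (fA N) (fB N) n ≤ {km : ℕ × ℕ | Adm' n km.1 km.2}.ncard := by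
  unfold rr
  rw [← Set.ncard_coe_finset]
  apply Set.ncard_le_ncard
  · intro x hx
    have hx' := Finset.mem_coe.1 hx
    obtain ⟨h1, h2⟩ := Finset.mem_filter.1 hx'
    obtain ⟨h3, h4⟩ := Finset.mem_product.1 h1
    have h5 := mem_fA.1 h3
    have h6 := mem_fB.1 h4
    exact ⟨h5.1, h6.1, h2, h5.2.2.1, h5.2.2.2, h6.2.2⟩
  · apply Set.Finite.subset (Finset.finite_toSet (Finset.range (n + 1) ×ˢ Finset.range (n + 1)))
    rintro ⟨k, m⟩ ⟨h1, h2, h3, _⟩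
    simp only at h1 h2 h3
    simp only [Finset.coe_product, Finset.coe_range, Set.mem_prod, Set.mem_Iio]
    omega

theorem out : ∃ c : ℝ, 0 < c ∧ ∃ N₀ : ℕ, ∀ N : ℕ, N₀ ≤ N → ∀ A B : ℝ,
    A = ({k : ℕ | 0 < k ∧ k ≤ N ∧ Nat.Prime (6 * k - 1) ∧ Nat.Prime (6 * k + 1)}.ncard : ℝ) →
    B = ({m : ℕ | 0 < m ∧ m ≤ N ∧ Nat.Prime (Nat.nth Nat.Prime (m - 1) + 2)}.ncard : ℝ) →
    1 ≤ A ∧ A ≤ B ∧
    c * (A ^ 2 * Real.log N ^ 4 / (N * Real.log (2 + Real.log (N / B)) ^ 2)) ≤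
      ({n : ℕ | 1 ≤ n ∧ n ≤ 2 * N ∧
        A * B / (4 * N) ≤ ({km : ℕ × ℕ | Adm' n km.1 km.2}.ncard : ℝ)}.ncard : ℝ) := by
  obtain ⟨c, hc, N₀, h⟩ := main
  refine ⟨c, hc, N₀, ?_⟩
  intro N hN A B hA hB
  rw [ncard_A] at hA
  rw [ncard_B] at hB
  obtain ⟨h1, h2, h3⟩ := h N hN
  refine ⟨by rw [hA]; exact_mod_cast h1, by rw [hA, hB]; exact_mod_cast h2, ?_⟩
  rw [← hA, ← hB] at h3
  refine h3.trans ?_
  have h4 : ((Finset.Icc 1 (2 * N)).filter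
        (fun n => A * B / (4 * N) ≤ (rr (fA N) (fB N) n : ℝ))).card
      ≤ {n : ℕ | 1 ≤ n ∧ n ≤ 2 * N ∧
        A * B / (4 * N) ≤ ({km : ℕ × ℕ | Adm' n km.1 km.2}.ncard : ℝ)}.ncard := by
    rw [← Set.ncard_coe_finset]
    apply Set.ncard_le_ncard
    · intro n hn
      obtain ⟨g1, g2⟩ := Finset.mem_filter.1 (Finset.mem_coe.1 hn)
      have g3 := Finset.mem_Icc.1 g1
      refine ⟨g3.1, g3.2, g2.trans ?_⟩
      exact_mod_cast rr_le_ncard N n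
    · apply Set.Finite.subset (Set.finite_Icc 1 (2 * N))
      rintro n ⟨g1, g2, _⟩
      exact ⟨g1, g2⟩
  exact_mod_cast h4

end Pool.Agent.Helper20_Rom
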