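import Pool.Agent.Helper20_Rom.Out

set_option autoImplicit false

/-!
The clean bound for the number of represented integers.
-/

namespace Pool.Agent.Helper20_Rom

open Finset Filter

lemma reprs_ge_A (N : ℕ) (hN : 2 ≤ N) :
    {k : ℕ | 0 < k ∧ k ≤ N ∧ Nat.Prime (6 * k - 1) ∧ Nat.Prime (6 * k + 1)}.ncard ≤
      {n : ℕ | 1 ≤ n ∧ n ≤ 2 * N ∧ ∃ k m : ℕ, Adm' n k m}.ncard := by
  have hfin : {n : ℕ | 1 ≤ n ∧ n ≤ 2 * N ∧ ∃ k m : ℕ, Adm' n k m}.Finite :=
    (Set.finite_Icc 1 (2 * N)).subset fun n hn => ⟨hn.1, hn.2.1⟩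
  apply Set.ncard_le_ncard_of_injOn (fun k => k + 2) _ _ hfin
  · rintro k ⟨h1, h2, h3, h4⟩
    refine ⟨by omega, by omega, k, 2, h1, by norm_num, rfl, h3, h4, ?_⟩
    have : Nat.nth Nat.Prime (2 - 1) = 3 := Nat.nth_prime_one_eq_three
    rw [this]
    norm_num
  · intro a _ b _ h
    simpa using h

theorem out2 : ∃ c : ℝ, 0 < c ∧ ∃ N₀ : ℕ, ∀ N : ℕ, N₀ ≤ N → ∀ A B : ℝ,
    A = ({k : ℕ | 0 < k ∧ k ≤ N ∧ Nat.Prime (6 * k - 1) ∧ Nat.Prime (6 * k + 1)}.ncard : ℝ) →
    B = ({m : ℕ | 0 < m ∧ m ≤ N ∧ Nat.Prime (Nat.nth Nat.Prime (m - 1) + 2)}.ncard : ℝ) →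
    1 ≤ A ∧ A ≤ B ∧
    c * (A ^ 2 * Real.log N ^ 4 / (N * Real.log (2 + Real.log (N / B)) ^ 2)) ≤
      ({n : ℕ | 1 ≤ n ∧ n ≤ 2 * N ∧
        A * B / (4 * N) ≤ ({km : ℕ × ℕ | Adm' n km.1 km.2}.ncard : ℝ)}.ncard : ℝ) ∧
    c * (A ^ 2 * Real.log N ^ 4 / (N * Real.log (Real.log (Real.log N)) ^ 2)) ≤
      ({n : ℕ | 1 ≤ n ∧ n ≤ 2 * N ∧ ∃ k m : ℕ, Adm' n k m}.ncard : ℝ) := by
  obtain ⟨c, hc, N₀, h⟩ := out
  have tL : Tendsto (fun N : ℕ => Real.log N) atTop atTop :=
    Real.tendsto_log_atTop.comp tendsto_natCast_atTop_atTop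
  have tLL : Tendsto (fun N : ℕ => Real.log (Real.log N)) atTop atTop :=
    Real.tendsto_log_atTop.comp tL
  have tLLL : Tendsto (fun N : ℕ => Real.log (Real.log (Real.log N))) atTop atTop :=
    Real.tendsto_log_atTop.comp tLL
  obtain ⟨N₁, hN₁⟩ := eventually_atTop.1
    (((tL.eventually_ge_atTop 1).and (tLL.eventually_ge_atTop 5)).and
      (tLLL.eventually_ge_atTop 1))
  refine ⟨min (c / 4) 1, lt_min (by positivity) one_pos, max (max N₀ N₁) 2, ?_⟩
  intro N hN A B hA hB
  have hN0 : N₀ ≤ N := le_trans (le_trans (le_max_left _ _) (le_max_left _ _)) hN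
  have hN1 : N₁ ≤ N := le_trans (le_trans (le_max_right _ _) (le_max_left _ _)) hN
  have hN2 : 2 ≤ N := le_trans (le_max_right _ _) hN
  obtain ⟨⟨l1, l2⟩, l3⟩ := hN₁ N hN1
  obtain ⟨h1, h2, h3⟩ := h N hN0 A B hA hB
  have hNr : (2 : ℝ) ≤ N := by exact_mod_cast hN2
  have hNp : (0 : ℝ) < N := by linarith
  have hA0 : 0 < A := by linarith
  have hB0 : 0 < B := by linarith
  have hBN : B ≤ N := by
    rw [hB, ncard_B]
    have : (fB N).card ≤ N := by
      have : fB N ⊆ Finset.Icc 1 N := by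
        intro m hm
        have := mem_fB.1 hm
        rw [Finset.mem_Icc]
        exact ⟨this.1, this.2.1⟩
      have := Finset.card_le_card this
      simpa using this
    exact_mod_cast this
  have hX : 0 ≤ A ^ 2 * Real.log N ^ 4 / (N * Real.log (2 + Real.log (N / B)) ^ 2) := by
    positivity
  have hY : 0 ≤ A ^ 2 * Real.log N ^ 4 / (N * Real.log (Real.log (Real.log N)) ^ 2) := by
    positivity
  refine ⟨h1, h2, ?_, ?_⟩
  · refine le_trans (mul_le_mul_of_nonneg_right ?_ hX) h3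
    exact (min_le_left _ _).trans (by linarith)
  · have hfin : {n : ℕ | 1 ≤ n ∧ n ≤ 2 * N ∧ ∃ k m : ℕ, Adm' n k m}.Finite :=
      (Set.finite_Icc 1 (2 * N)).subset fun n hn => ⟨hn.1, hn.2.1⟩
    rcases le_or_gt ((N : ℝ) / Real.log N ^ 4) A with hc1 | hc1
    · -- many
      have h4 : ({n : ℕ | 1 ≤ n ∧ n ≤ 2 * N ∧
          A * B / (4 * N) ≤ ({km : ℕ × ℕ | Adm' n km.1 km.2}.ncard : ℝ)}.ncard : ℝ) ≤
          ({n : ℕ | 1 ≤ n ∧ n ≤ 2 * N ∧ ∃ k m : ℕ, Adm' n k m}.ncard : ℝ) := by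
        have : {n : ℕ | 1 ≤ n ∧ n ≤ 2 * N ∧
          A * B / (4 * N) ≤ ({km : ℕ × ℕ | Adm' n km.1 km.2}.ncard : ℝ)} ⊆
          {n : ℕ | 1 ≤ n ∧ n ≤ 2 * N ∧ ∃ k m : ℕ, Adm' n k m} := by
          rintro n ⟨g1, g2, g3⟩
          refine ⟨g1, g2, ?_⟩
          by_contra hcon
          have he : {km : ℕ × ℕ | Adm' n km.1 km.2} = ∅ := by
            ext ⟨k, m⟩
            simp only [Set.mem_ofPred_eq, Set.mem_empty_iff_false, iff_false]
            intro hk
            exact hcon ⟨k, m, hk⟩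
          rw [he, Set.ncard_empty] at g3
          have : 0 < A * B / (4 * N) := by positivity
          push_cast at g3
          linarith
        exact_mod_cast Set.ncard_le_ncard this hfin
      refine le_trans ?_ (h3.trans h4)
      have hl0 : 0 < Real.log N := by linarith
      have hy0 : 0 < Real.log (Real.log N) := by linarith
      have hl4 : 0 < Real.log N ^ 4 := by positivity
      have hNB : (N : ℝ) / B ≤ Real.log N ^ 4 := by
        rw [div_le_iff₀ hB0]
        rw [div_le_iff₀ hl4] at hc1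
        calc (N : ℝ) ≤ A * Real.log N ^ 4 := hc1
          _ ≤ B * Real.log N ^ 4 := mul_le_mul_of_nonneg_right h2 hl4.le
          _ = Real.log N ^ 4 * B := by ring
      have hNB1 : 1 ≤ (N : ℝ) / B := by
        rw [le_div_iff₀ hB0]; linarith
      have hlog : Real.log (N / B) ≤ 4 * Real.log (Real.log N) := by
        calc Real.log (N / B) ≤ Real.log (Real.log N ^ 4) :=
              Real.log_le_log (by linarith) hNB
          _ = 4 * Real.log (Real.log N) := by rw [Real.log_pow]; norm_num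
      have hlog0 : 0 ≤ Real.log (N / B) := Real.log_nonneg hNB1
      have hup : Real.log (2 + Real.log (N / B)) ≤ 2 * Real.log (Real.log (Real.log N)) := by
        calc Real.log (2 + Real.log (N / B)) ≤ Real.log (Real.log (Real.log N) ^ 2) := by
              apply Real.log_le_log (by linarith)
              nlinarith
          _ = 2 * Real.log (Real.log (Real.log N)) := by rw [Real.log_pow]; norm_num
      have hlo : 0 < Real.log (2 + Real.log (N / B)) := Real.log_pos (by linarith)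
      have e1 : Real.log (2 + Real.log (N / B)) ^ 2 ≤
          4 * Real.log (Real.log (Real.log N)) ^ 2 := by
        calc Real.log (2 + Real.log (N / B)) ^ 2 ≤ (2 * Real.log (Real.log (Real.log N))) ^ 2 :=
              pow_le_pow_left₀ hlo.le hup 2
          _ = 4 * Real.log (Real.log (Real.log N)) ^ 2 := by ring
      have e2 : A ^ 2 * Real.log N ^ 4 / (N * Real.log (Real.log (Real.log N)) ^ 2) =
          4 * (A ^ 2 * Real.log N ^ 4 / (N * (4 * Real.log (Real.log (Real.log N)) ^ 2))) := by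
        field_simp
      have e3 : A ^ 2 * Real.log N ^ 4 / (N * (4 * Real.log (Real.log (Real.log N)) ^ 2)) ≤
          A ^ 2 * Real.log N ^ 4 / (N * Real.log (2 + Real.log (N / B)) ^ 2) := by
        apply div_le_div_of_nonneg_left (by positivity) (by positivity)
        exact mul_le_mul_of_nonneg_left e1 hNp.le
      rw [e2]
      have e4 : 0 ≤ A ^ 2 * Real.log N ^ 4 / (N * (4 * Real.log (Real.log (Real.log N)) ^ 2)) := by
        positivity
      calc min (c / 4) 1 * (4 * (A ^ 2 * Real.log N ^ 4 /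
            (N * (4 * Real.log (Real.log (Real.log N)) ^ 2))))
          ≤ c / 4 * (4 * (A ^ 2 * Real.log N ^ 4 /
            (N * (4 * Real.log (Real.log (Real.log N)) ^ 2)))) :=
            mul_le_mul_of_nonneg_right (min_le_left _ _) (by positivity)
        _ = c * (A ^ 2 * Real.log N ^ 4 / (N * (4 * Real.log (Real.log (Real.log N)) ^ 2))) := by
            ring
        _ ≤ c * (A ^ 2 * Real.log N ^ 4 / (N * Real.log (2 + Real.log (N / B)) ^ 2)) :=
            mul_le_mul_of_nonneg_left e3 hc.le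
    · -- few
      have h5 : A ≤ ({n : ℕ | 1 ≤ n ∧ n ≤ 2 * N ∧ ∃ k m : ℕ, Adm' n k m}.ncard : ℝ) := by
        rw [hA]
        exact_mod_cast reprs_ge_A N hN2
      refine le_trans ?_ h5
      have hl0 : 0 < Real.log N := by linarith
      have hl4 : 0 < Real.log N ^ 4 := by positivity
      have e0 : (1 : ℝ) ≤ Real.log (Real.log (Real.log N)) ^ 2 := one_le_pow₀ l3
      have e1 : A ^ 2 * Real.log N ^ 4 / (N * Real.log (Real.log (Real.log N)) ^ 2) ≤ A := by
        rw [div_le_iff₀ (by positivity)]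
        rw [lt_div_iff₀ hl4] at hc1
        calc A ^ 2 * Real.log N ^ 4 = A * (A * Real.log N ^ 4) := by ring
          _ ≤ A * N := mul_le_mul_of_nonneg_left hc1.le hA0.le
          _ ≤ A * (N * Real.log (Real.log (Real.log N)) ^ 2) := by
            apply mul_le_mul_of_nonneg_left _ hA0.le
            exact le_mul_of_one_le_right hNp.le e0
      calc min (c / 4) 1 * (A ^ 2 * Real.log N ^ 4 / (N * Real.log (Real.log (Real.log N)) ^ 2))
          ≤ 1 * (A ^ 2 * Real.log N ^ 4 / (N * Real.log (Real.log (Real.log N)) ^ 2)) :=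
            mul_le_mul_of_nonneg_right (min_le_right _ _) hY
        _ ≤ A := by rw [one_mul]; exact e1

end Pool.Agent.Helper20_Rom
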