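import Pool.Agent.Helper20_Rom.Sieve
import Pool.Agent.Common_Sieve.Primes
import Pool.Agent.Common_Mertens.Mertens

set_option autoImplicit false
set_option exponentiation.threshold 1000

/-!
Local counts for the four forms `6n-1, 6n+1, 6n+6h-1, 6n+6h+1`.
-/

namespace Pool.Agent.Helper20_Rom

open Finset Pool.Agent.Common_Sieve

/-- one of the four forms is divisible by `p` -/
def P4 (h : ℤ) (p : ℕ) (n : ℤ) : Prop :=
  (p : ℤ) ∣ 6 * n + (-1) ∨ (p : ℤ) ∣ 6 * n + 1 ∨ (p : ℤ) ∣ 6 * n + (6 * h - 1) ∨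
    (p : ℤ) ∣ 6 * n + (6 * h + 1)

instance (h : ℤ) (p : ℕ) (n : ℤ) : Decidable (P4 h p n) := by
  unfold P4; infer_instance

lemma P4_per (h : ℤ) (p : ℕ) (n : ℤ) : P4 h p (n + p) ↔ P4 h p n := by
  unfold P4
  have e : ∀ b : ℤ, ((p : ℤ) ∣ 6 * (n + p) + b ↔ (p : ℤ) ∣ 6 * n + b) := by
    intro b
    rw [show 6 * (n + (p:ℤ)) + b = 6 * n + b + 6 * p by ring]
    exact dvd_add_left (Dvd.intro_left 6 rfl)
  rw [e, e, e, e]

/-- the discriminant-type quantity -/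
def DD (h : ℤ) : ℤ := h * ((3 * h - 1) * (3 * h + 1))

lemma root {p : ℕ} (hp : p.Prime) (h7 : 7 ≤ p) (b : ℤ) :
    ∃ r : ℕ, (range p).filter (fun r : ℕ => (p : ℤ) ∣ 6 * r + b) = {r} := by
  rw [← Finset.card_eq_one]
  apply card_dvd_one hp
  intro hd
  have h1 := Int.le_of_dvd (by norm_num) hd
  omega

lemma root_ne {p : ℕ} {b b' : ℤ} {r r' : ℕ}
    (h1 : (range p).filter (fun r : ℕ => (p : ℤ) ∣ 6 * r + b) = {r})
    (h2 : (range p).filter (fun r : ℕ => (p : ℤ) ∣ 6 * r + b') = {r'})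
    (h3 : ¬ (p : ℤ) ∣ b - b') : r ≠ r' := by
  rintro rfl
  have e1 : r ∈ (range p).filter (fun r : ℕ => (p : ℤ) ∣ 6 * r + b) := by
    rw [h1]; exact Finset.mem_singleton_self _
  have e2 : r ∈ (range p).filter (fun r : ℕ => (p : ℤ) ∣ 6 * r + b') := by
    rw [h2]; exact Finset.mem_singleton_self _
  have e3 := (Finset.mem_filter.1 e1).2
  have e4 := (Finset.mem_filter.1 e2).2
  apply h3
  have := dvd_sub e3 e4
  rwa [show 6 * (r:ℤ) + b - (6 * r + b') = b - b' by ring] at this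

lemma cnt_P4 {p : ℕ} (hp : p.Prime) (h7 : 7 ≤ p) (h : ℤ) :
    cnt (P4 h) p ≤ 4 ∧ 2 ≤ cnt (P4 h) p ∧ (¬ (p : ℤ) ∣ DD h → 4 ≤ cnt (P4 h) p) := by
  obtain ⟨r1, hr1⟩ := root hp h7 (-1)
  obtain ⟨r2, hr2⟩ := root hp h7 1
  obtain ⟨r3, hr3⟩ := root hp h7 (6 * h - 1)
  obtain ⟨r4, hr4⟩ := root hp h7 (6 * h + 1)
  have hS : (range p).filter (fun r : ℕ => P4 h p (r : ℤ)) = {r1} ∪ ({r2} ∪ ({r3} ∪ {r4})) := by
    rw [← hr1, ← hr2, ← hr3, ← hr4]
    unfold P4
    rw [Finset.filter_or, Finset.filter_or, Finset.filter_or]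
  have hc : cnt (P4 h) p = ((range p).filter (fun r : ℕ => P4 h p (r : ℤ))).card := rfl
  rw [hc, hS]
  have hpn : ∀ q : ℤ, q ≠ 0 → |q| < 7 → ¬ (p : ℤ) ∣ q := by
    intro q hq hq7 hd
    have h1 := Int.le_of_dvd (abs_pos.2 hq) ((dvd_abs _ _).2 hd)
    omega
  have n2 : ¬ (p : ℤ) ∣ 2 := hpn 2 (by norm_num) (by norm_num)
  have n12 : r1 ≠ r2 := root_ne hr1 hr2 (by
    rw [show (-1 : ℤ) - 1 = -2 by norm_num, dvd_neg]
    exact n2)
  have n34 : r3 ≠ r4 := root_ne hr3 hr4 (by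
    rw [show (6 * h - 1) - (6 * h + 1) = (-2 : ℤ) by ring, dvd_neg]
    exact n2)
  have hprime : ∀ a b : ℤ, (p : ℤ) ∣ a * b → (p : ℤ) ∣ a ∨ (p : ℤ) ∣ b := fun a b hab =>
    (Nat.prime_iff_prime_int.1 hp).dvd_or_dvd hab
  have n6 : ¬ (p : ℤ) ∣ 6 := hpn 6 (by norm_num) (by norm_num)
  refine ⟨?_, ?_, ?_⟩
  · refine (Finset.card_union_le _ _).trans ?_
    have e1 := Finset.card_union_le ({r2} : Finset ℕ) ({r3} ∪ {r4})
    have e2 := Finset.card_union_le ({r3} : Finset ℕ) {r4}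
    simp only [Finset.card_singleton] at e1 e2 ⊢
    omega
  · have e : ({r1, r2} : Finset ℕ) ⊆ {r1} ∪ ({r2} ∪ ({r3} ∪ {r4})) := by
      intro x hx
      simp only [Finset.mem_insert, Finset.mem_singleton, Finset.mem_union] at hx ⊢
      tauto
    have := Finset.card_le_card e
    rwa [Finset.card_pair n12] at this
  · intro hD
    have hh : ¬ (p : ℤ) ∣ h := fun hd => hD (Dvd.dvd.mul_right hd _)
    have hm : ¬ (p : ℤ) ∣ 3 * h - 1 := fun hd => hD (Dvd.dvd.mul_left (Dvd.dvd.mul_right hd _) _)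
    have hq : ¬ (p : ℤ) ∣ 3 * h + 1 := fun hd => hD (Dvd.dvd.mul_left (Dvd.dvd.mul_left hd _) _)
    have n6h : ¬ (p : ℤ) ∣ 6 * h := by
      intro hd
      rcases hprime _ _ hd with h1 | h1
      · exact n6 h1
      · exact hh h1
    have n13 : r1 ≠ r3 := root_ne hr1 hr3 (by
      rw [show (-1 : ℤ) - (6 * h - 1) = -(6 * h) by ring, dvd_neg]
      exact n6h)
    have n24 : r2 ≠ r4 := root_ne hr2 hr4 (by
      rw [show (1 : ℤ) - (6 * h + 1) = -(6 * h) by ring, dvd_neg]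
      exact n6h)
    have n14 : r1 ≠ r4 := root_ne hr1 hr4 (by
      rw [show (-1 : ℤ) - (6 * h + 1) = -(2 * (3 * h + 1)) by ring, dvd_neg]
      intro hd
      rcases hprime _ _ hd with h1 | h1
      · exact n2 h1
      · exact hq h1)
    have n23 : r2 ≠ r3 := root_ne hr2 hr3 (by
      rw [show (1 : ℤ) - (6 * h - 1) = -(2 * (3 * h - 1)) by ring, dvd_neg]
      intro hd
      rcases hprime _ _ hd with h1 | h1
      · exact n2 h1
      · exact hm h1)
    have e : ({r1} ∪ ({r2} ∪ ({r3} ∪ {r4})) : Finset ℕ) = {r1, r2, r3, r4} := by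
      ext x
      simp only [Finset.mem_insert, Finset.mem_singleton, Finset.mem_union]
    rw [e, Finset.card_insert_of_notMem, Finset.card_insert_of_notMem,
      Finset.card_insert_of_notMem, Finset.card_singleton]
    · simpa using n34
    · simp only [Finset.mem_insert, Finset.mem_singleton]
      tauto
    · simp only [Finset.mem_insert, Finset.mem_singleton]
      tauto

lemma one_le_prodR {s : Finset ℕ} {f : ℕ → ℝ} (h : ∀ p ∈ s, 1 ≤ f p) : 1 ≤ ∏ p ∈ s, f p := by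
  calc (1:ℝ) = ∏ _p ∈ s, (1:ℝ) := by simp
    _ ≤ ∏ p ∈ s, f p := Finset.prod_le_prod (fun _ _ => by norm_num) h

lemma prod_le_of_subsetR {s t : Finset ℕ} (hst : s ⊆ t) {f : ℕ → ℝ} (h : ∀ p ∈ t, 1 ≤ f p) :
    ∏ p ∈ s, f p ≤ ∏ p ∈ t, f p := by
  rw [← Finset.prod_sdiff hst]
  have h1 : 1 ≤ ∏ p ∈ t \ s, f p := one_le_prodR (fun p hp => h p (Finset.mem_sdiff.1 hp).1)
  have h2 : 1 ≤ ∏ p ∈ s, f p := one_le_prodR (fun p hp => h p (hst hp))
  nlinarith

/-- small primes factor -/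
noncomputable def MM (y : ℕ) : ℝ := ∏ p ∈ Nat.primesLE y, (1 - (1:ℝ) / p)⁻¹

lemma inv_ge_one {p : ℕ} (hp : p.Prime) : 1 ≤ (1 - (1:ℝ) / p)⁻¹ := by
  rw [one_le_inv₀ (one_sub_inv_pos hp)]
  exact one_sub_inv_le p

lemma MM_ge_one (y : ℕ) : 1 ≤ MM y := by
  unfold MM
  apply one_le_prodR
  intro p hp
  exact inv_ge_one (Nat.mem_primesLE.1 hp).2

/-- medium primes factor -/
noncomputable def TT' (y u : ℕ) (h : ℤ) : ℝ :=
  ∏ p ∈ (Nat.primesLE u).filter (fun p => y < p ∧ (p : ℤ) ∣ DD h), (1 + (3:ℝ) / p)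

lemma one_add_ge (p : ℕ) : (1:ℝ) ≤ 1 + 3 / p := by
  have : (0:ℝ) ≤ 3 / p := by positivity
  linarith

lemma TT'_ge_one (y u : ℕ) (h : ℤ) : 1 ≤ TT' y u h := by
  unfold TT'
  exact one_le_prodR (fun p _ => one_add_ge p)

/-- the three weights -/
noncomputable def w1 (y p : ℕ) : ℝ := if p ≤ y then ((1 - (1:ℝ) / p)⁻¹) ^ 2 else 1

/-- the three weights -/
noncomputable def w2 (y u : ℕ) (h : ℤ) (p : ℕ) : ℝ :=
  if (p ≤ u ∧ (y < p ∧ (p : ℤ) ∣ DD h)) then 1 + (3:ℝ) / p else 1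

/-- the three weights -/
noncomputable def w3 (u : ℕ) (h : ℤ) (p : ℕ) : ℝ :=
  if (u < p ∧ (p : ℤ) ∣ DD h) then 1 + (3:ℝ) / p else 1

lemma w1_ge {y p : ℕ} (hp : p.Prime) : 1 ≤ w1 y p := by
  unfold w1
  split_ifs
  · exact one_le_pow₀ (inv_ge_one hp)
  · exact le_rfl

lemma w2_ge (y u : ℕ) (h : ℤ) (p : ℕ) : 1 ≤ w2 y u h p := by
  unfold w2
  split_ifs
  · exact one_add_ge p
  · exact le_rfl

lemma w3_ge (u : ℕ) (h : ℤ) (p : ℕ) : 1 ≤ w3 u h p := by
  unfold w3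
  split_ifs
  · exact one_add_ge p
  · exact le_rfl

lemma ptw {p : ℕ} (hp : p.Prime) (h7 : 7 ≤ p) (h : ℤ) (y u : ℕ) :
    1 - (cnt (P4 h) p : ℝ) / p
      ≤ (1 - (1:ℝ) / p) ^ 4 * (w1 y p * w2 y u h p * w3 u h p) := by
  obtain ⟨_, hc2, hc4⟩ := cnt_P4 hp h7 h
  have hp7 : (7:ℝ) ≤ p := by exact_mod_cast h7
  obtain ⟨x, hx⟩ : ∃ x : ℝ, x = 1 / p := ⟨_, rfl⟩
  have hx0 : 0 < x := by rw [hx]; positivity
  have hx7 : x ≤ 1 / 7 := by
    rw [hx]
    exact one_div_le_one_div_of_le (by norm_num) hp7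
  have hcx : (cnt (P4 h) p : ℝ) / p = cnt (P4 h) p * x := by rw [hx]; ring
  have hw1 := w1_ge (y := y) hp
  have hw2 := w2_ge y u h p
  have hw3 := w3_ge u h p
  rw [hcx, ← hx]
  have h1x : 0 ≤ (1 - x) ^ 4 := by positivity
  by_cases hD : (p : ℤ) ∣ DD h
  · have h2 : (2:ℝ) ≤ cnt (P4 h) p := by exact_mod_cast hc2
    have h3 : 1 - (cnt (P4 h) p : ℝ) * x ≤ (1 - x) ^ 2 := by nlinarith
    refine h3.trans ?_
    by_cases hy : p ≤ y
    · have e1 : w1 y p = ((1 - x)⁻¹) ^ 2 := by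
        unfold w1
        rw [if_pos hy, hx]
      have h5 : 1 ≤ w2 y u h p * w3 u h p := by nlinarith
      have h6 : (1 - x) ^ 4 * w1 y p = (1 - x) ^ 2 := by
        rw [e1]
        have : (1 - x) ≠ 0 := by
          have : 0 < 1 - x := by linarith
          exact this.ne'
        field_simp
      calc (1 - x) ^ 2 = (1 - x) ^ 2 * 1 := by ring
        _ ≤ (1 - x) ^ 2 * (w2 y u h p * w3 u h p) :=
            mul_le_mul_of_nonneg_left h5 (by positivity)
        _ = (1 - x) ^ 4 * w1 y p * (w2 y u h p * w3 u h p) := by rw [h6]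
        _ = _ := by ring
    · have e3 : 1 + 3 * x ≤ w2 y u h p * w3 u h p := by
        have e4 : (3:ℝ) / p = 3 * x := by rw [hx]; ring
        by_cases hu : p ≤ u
        · have e2 : w2 y u h p = 1 + 3 * x := by
            unfold w2
            rw [if_pos ⟨hu, by omega, hD⟩, e4]
          rw [e2]
          nlinarith
        · have e2 : w3 u h p = 1 + 3 * x := by
            unfold w3
            rw [if_pos ⟨by omega, hD⟩, e4]
          rw [e2]
          nlinarith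
      have e5 : 1 ≤ (1 - x) ^ 2 * (1 + 3 * x) := by
        have e7 : (1 - x) ^ 2 * (1 + 3 * x) = 1 + x * (1 - 5 * x + 3 * x ^ 2) := by ring
        have e8 : 0 ≤ 1 - 5 * x + 3 * x ^ 2 := by nlinarith [sq_nonneg x]
        have e9 := mul_nonneg hx0.le e8
        linarith
      have e6 : 1 + 3 * x ≤ w1 y p * w2 y u h p * w3 u h p := by
        have : w2 y u h p * w3 u h p ≤ w1 y p * (w2 y u h p * w3 u h p) := by nlinarith
        calc 1 + 3 * x ≤ w2 y u h p * w3 u h p := e3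
          _ ≤ w1 y p * (w2 y u h p * w3 u h p) := this
          _ = _ := by ring
      calc (1 - x) ^ 2 = (1 - x) ^ 2 * 1 := by ring
        _ ≤ (1 - x) ^ 2 * ((1 - x) ^ 2 * (1 + 3 * x)) :=
            mul_le_mul_of_nonneg_left e5 (by positivity)
        _ = (1 - x) ^ 4 * (1 + 3 * x) := by ring
        _ ≤ _ := mul_le_mul_of_nonneg_left e6 h1x
  · have h4 : (4:ℝ) ≤ cnt (P4 h) p := by exact_mod_cast hc4 hD
    have h5 : 1 - (cnt (P4 h) p : ℝ) * x ≤ (1 - x) ^ 4 := by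
      have h6 := one_add_mul_le_pow (show (-2:ℝ) ≤ -x by linarith) 4
      have h7 : (1 + -x) ^ 4 = (1 - x) ^ 4 := by ring
      rw [h7] at h6
      push_cast at h6
      nlinarith
    refine h5.trans ?_
    have h7 : 1 ≤ w1 y p * w2 y u h p * w3 u h p := by
      have : 1 ≤ w1 y p * w2 y u h p := by nlinarith
      nlinarith
    nlinarith

lemma prod_w1 (y z : ℕ) (S : Finset ℕ) (hS : ∀ p ∈ S, p.Prime ∧ p < z) :
    ∏ p ∈ S, w1 y p ≤ MM y ^ 2 := by
  unfold w1 MM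
  rw [← Finset.prod_filter, Finset.prod_pow]
  apply pow_le_pow_left₀
  · apply Finset.prod_nonneg
    intro p hp
    exact zero_le_one.trans (inv_ge_one (hS p (Finset.mem_filter.1 hp).1).1)
  · apply prod_le_of_subsetR
    · intro p hp
      obtain ⟨h1, h2⟩ := Finset.mem_filter.1 hp
      exact Nat.mem_primesLE.2 ⟨h2, (hS p h1).1⟩
    · intro p hp
      exact inv_ge_one (Nat.mem_primesLE.1 hp).2

lemma prod_w2 (y u z : ℕ) (h : ℤ) (S : Finset ℕ) (hS : ∀ p ∈ S, p.Prime ∧ p < z) :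
    ∏ p ∈ S, w2 y u h p ≤ TT' y u h := by
  unfold w2 TT'
  rw [← Finset.prod_filter]
  apply prod_le_of_subsetR
  · intro p hp
    obtain ⟨h1, h2, h3⟩ := Finset.mem_filter.1 hp
    exact Finset.mem_filter.2 ⟨Nat.mem_primesLE.2 ⟨h2, (hS p h1).1⟩, h3⟩
  · intro p _
    exact one_add_ge p

lemma DD_bound {h : ℤ} {N : ℕ} (hN : 9 ≤ N) (hh : |h| ≤ N) : (DD h).natAbs ≤ N ^ 4 := by
  have h1 : |DD h| ≤ (N:ℤ) ^ 4 := by
    unfold DD
    have h0 := abs_nonneg h
    have hNz : (9:ℤ) ≤ N := by exact_mod_cast hN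
    have h2 : |(3 * h - 1) * (3 * h + 1)| ≤ 9 * (N:ℤ) ^ 2 := by
      rw [show (3 * h - 1) * (3 * h + 1) = 9 * h ^ 2 - 1 by ring, abs_le]
      have h3 : h ^ 2 ≤ (N:ℤ) ^ 2 := by
        rw [← sq_abs h]
        exact pow_le_pow_left₀ h0 hh 2
      constructor <;> nlinarith
    rw [abs_mul]
    calc |h| * |(3 * h - 1) * (3 * h + 1)| ≤ N * (9 * (N:ℤ) ^ 2) :=
          mul_le_mul hh h2 (abs_nonneg _) (by positivity)
      _ ≤ N * (N * (N:ℤ) ^ 2) := by
          apply mul_le_mul_of_nonneg_left _ (by positivity)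
          exact mul_le_mul_of_nonneg_right hNz (by positivity)
      _ = (N:ℤ) ^ 4 := by ring
  have h2 : ((DD h).natAbs : ℤ) ≤ ((N ^ 4 : ℕ) : ℤ) := by
    rw [Int.natCast_natAbs]
    push_cast
    exact h1
  exact_mod_cast h2

lemma DD_ne {h : ℤ} (hh : h ≠ 0) : DD h ≠ 0 := by
  unfold DD
  apply mul_ne_zero hh
  apply mul_ne_zero
  · omega
  · omega

lemma prod_w3 {N : ℕ} (hN : 9 ≤ N) {h : ℤ} (hh0 : h ≠ 0) (hh : |h| ≤ N) (z : ℕ)
    (S : Finset ℕ) (hS : ∀ p ∈ S, p.Prime ∧ p < z) (h7 : ∀ p ∈ S, 7 ≤ p) :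
    ∏ p ∈ S, w3 ⌊Real.log N⌋₊ h p ≤ Real.exp 12 := by
  unfold w3
  rw [← Finset.prod_filter]
  set F := S.filter (fun p => ⌊Real.log N⌋₊ < p ∧ (p : ℤ) ∣ DD h) with hF
  have hNr : (9:ℝ) ≤ N := by exact_mod_cast hN
  have hlog : 0 < Real.log N := Real.log_pos (by linarith)
  have hprime : ∀ p ∈ F, p.Prime := fun p hp => (hS p (Finset.mem_filter.1 hp).1).1
  have hdvd : (∏ p ∈ F, p) ∣ (DD h).natAbs := by
    apply Finset.prod_primes_dvd
    · intro p hp
      exact (hprime p hp).prime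
    · intro p hp
      have := (Finset.mem_filter.1 hp).2.2
      exact Int.natCast_dvd.1 this
  have hle : (∏ p ∈ F, p) ≤ N ^ 4 :=
    (Nat.le_of_dvd (Int.natAbs_pos.2 (DD_ne hh0)) hdvd).trans (DD_bound hN hh)
  have hcard : (F.card : ℝ) ≤ 4 * Real.log N := by
    have h1 : Real.exp (F.card) ≤ (N:ℝ) ^ 4 := by
      calc Real.exp (F.card) = Real.exp 1 ^ F.card := by
            rw [← Real.exp_nat_mul, mul_one]
        _ = ∏ _p ∈ F, Real.exp 1 := by rw [Finset.prod_const]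
        _ ≤ ∏ p ∈ F, (p : ℝ) := by
            apply Finset.prod_le_prod
            · intro p _; positivity
            · intro p hp
              have h2 : (7:ℝ) ≤ p := by exact_mod_cast h7 p (Finset.mem_filter.1 hp).1
              have := Real.exp_one_lt_d9
              linarith
        _ = ((∏ p ∈ F, p : ℕ) : ℝ) := by push_cast; rfl
        _ ≤ (N:ℝ) ^ 4 := by exact_mod_cast hle
    have h2 := Real.log_le_log (Real.exp_pos _) h1
    rw [Real.log_exp, Real.log_pow] at h2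
    exact_mod_cast h2
  calc ∏ p ∈ F, (1 + (3:ℝ) / p) ≤ ∏ p ∈ F, Real.exp (3 / Real.log N) := by
        apply Finset.prod_le_prod
        · intro p _; positivity
        · intro p hp
          have h1 := (Finset.mem_filter.1 hp).2.1
          have h2 : Real.log N < p := (Nat.floor_lt hlog.le).1 h1
          have h3 : (3:ℝ) / p ≤ 3 / Real.log N :=
            div_le_div_of_nonneg_left (by norm_num) hlog h2.le
          have h4 := Real.add_one_le_exp (3 / Real.log N)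
          linarith
    _ = Real.exp (F.card * (3 / Real.log N)) := by
        rw [Finset.prod_const, ← Real.exp_nat_mul]
    _ ≤ Real.exp 12 := by
        rw [Real.exp_le_exp]
        calc (F.card : ℝ) * (3 / Real.log N) ≤ (4 * Real.log N) * (3 / Real.log N) :=
              mul_le_mul_of_nonneg_right hcard (by positivity)
          _ = 12 := by field_simp; norm_num

lemma epsK_61 : epsK 4 61 ≤ 1 := by
  unfold epsK
  have h0 : (42 * ((4:ℕ):ℝ)) = 168 := by norm_num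
  rw [h0]
  have h1 : Real.exp 168 ≤ 16 ^ 61 := by
    have h2 : Real.exp 168 = Real.exp 1 ^ (168:ℕ) := by
      rw [← Real.exp_nat_mul]; norm_num
    rw [h2]
    have h3 : Real.exp 1 ≤ 2.7182818286 := Real.exp_one_lt_d9.le
    calc Real.exp 1 ^ (168:ℕ) ≤ (2.7182818286:ℝ) ^ (168:ℕ) :=
          pow_le_pow_left₀ (Real.exp_pos _).le h3 _
      _ ≤ 16 ^ 61 := by norm_num
  calc Real.exp 168 * (1 / 16) ^ 61 ≤ 16 ^ 61 * (1 / 16) ^ 61 :=
        mul_le_mul_of_nonneg_right h1 (by positivity)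
    _ = 1 := by norm_num

lemma exp_epsK_61 : Real.exp (epsK 4 61) ≤ 3 := by
  calc Real.exp (epsK 4 61) ≤ Real.exp 1 := Real.exp_le_exp.2 epsK_61
    _ ≤ 3 := by linarith [Real.exp_one_lt_d9]

end Pool.Agent.Helper20_Rom
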