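import Pool.Agent.Helper20_Rom.Pairs

set_option autoImplicit false
set_option exponentiation.threshold 4000

/-!
Upper bound for the number of `k <= N` such that `6k-1, 6k+1, 6(k+h)-1, 6(k+h)+1` are all prime,
uniformly in `h`.
-/

namespace Pool.Agent.Helper20_Rom

open Finset Pool.Agent.Common_Sieve

lemma lev500 {N : ℕ} (hw : 1 ≤ lev N) :
    ((lev N : ℕ) : ℝ) ^ 500 * (Real.log N) ^ 4 ≤ 331776 * N := by
  have h1 := lev_pow_le N
  have hN : 1 ≤ N := le_trans (Nat.one_le_pow _ _ hw) h1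
  have hNr : (1:ℝ) ≤ N := by exact_mod_cast hN
  have h2 : (((lev N : ℕ) : ℝ) ^ 500) ≤ (N:ℝ) ^ (5 / 6 : ℝ) := by
    have h3 : (((lev N : ℕ) : ℝ) ^ 500) ^ 6 ≤ ((N:ℝ) ^ (5 / 6 : ℝ)) ^ 6 := by
      rw [← Real.rpow_natCast ((N:ℝ) ^ (5 / 6 : ℝ)), ← Real.rpow_mul (by linarith)]
      have e : (5 / 6 : ℝ) * ((6:ℕ):ℝ) = ((5:ℕ):ℝ) := by norm_num
      rw [e, Real.rpow_natCast]
      calc (((lev N : ℕ) : ℝ) ^ 500) ^ 6 = (((lev N : ℕ) : ℝ) ^ 600) ^ 5 := by
            rw [← pow_mul, ← pow_mul]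
        _ ≤ (N:ℝ) ^ 5 := by
            apply pow_le_pow_left₀ (by positivity)
            exact_mod_cast h1
    exact le_of_pow_le_pow_left₀ (by norm_num) (by positivity) h3
  have h4 : (Real.log N) ^ 4 ≤ 331776 * (N:ℝ) ^ (1 / 6 : ℝ) := by
    have h5 : Real.log N ≤ 24 * (N:ℝ) ^ (1 / 24 : ℝ) := by
      have := Real.log_le_rpow_div (by linarith : (0:ℝ) ≤ N) (show (0:ℝ) < 1 / 24 by norm_num)
      linarith
    calc (Real.log N) ^ 4 ≤ (24 * (N:ℝ) ^ (1 / 24 : ℝ)) ^ 4 :=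
          pow_le_pow_left₀ (Real.log_nonneg hNr) h5 4
      _ = 331776 * ((N:ℝ) ^ (1 / 24 : ℝ)) ^ 4 := by rw [mul_pow]; norm_num
      _ = 331776 * (N:ℝ) ^ (1 / 6 : ℝ) := by
          congr 1
          rw [← Real.rpow_natCast, ← Real.rpow_mul (by linarith)]
          norm_num
  calc ((lev N : ℕ) : ℝ) ^ 500 * (Real.log N) ^ 4
      ≤ (N:ℝ) ^ (5 / 6 : ℝ) * (331776 * (N:ℝ) ^ (1 / 6 : ℝ)) :=
        mul_le_mul h2 h4 (by positivity) (by positivity)
    _ = 331776 * ((N:ℝ) ^ (5 / 6 : ℝ) * (N:ℝ) ^ (1 / 6 : ℝ)) := by ring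
    _ = 331776 * N := by
        rw [← Real.rpow_add (by linarith)]
        norm_num

theorem quad : ∃ C : ℝ, 0 < C ∧ ∃ N₀ : ℕ, ∀ N : ℕ, N₀ ≤ N → ∀ h : ℤ, h ≠ 0 → |h| ≤ N →
    ∀ y : ℕ, ∀ T : Finset ℕ,
    (∀ k ∈ T, 1 ≤ k ∧ k ≤ N ∧ (6 * k - 1).Prime ∧ (6 * k + 1).Prime ∧
      ∃ k' : ℕ, 1 ≤ k' ∧ (k' : ℤ) = k + h ∧ (6 * k' - 1).Prime ∧ (6 * k' + 1).Prime) →
    (T.card : ℝ) ≤ C * N / (Real.log N) ^ 4 * MM y ^ 2 * TT' y ⌊Real.log N⌋₊ h := by
  set c0 := ∏ p ∈ (7:ℕ).primesBelow, (1 - (1:ℝ) / p) with hc0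
  have hc0pos : 0 < c0 := Finset.prod_pos (fun p hp =>
    one_sub_inv_pos (Nat.prime_of_mem_primesBelow hp))
  obtain ⟨K, hK⟩ := (tendsto_lev.eventually_ge_atTop 101).exists_forall_of_atTop
  refine ⟨3 * (1200 / c0) ^ 4 * Real.exp 12 + 3 * 331776, by positivity, max K 9, ?_⟩
  intro N hN h hh0 hhN y T hT
  have hN9 : 9 ≤ N := le_trans (le_max_right _ _) hN
  have hw : 101 ≤ lev N := hK N (le_trans (le_max_left _ _) hN)
  set w := lev N with hwdef
  have hNr : (9:ℝ) ≤ N := by exact_mod_cast hN9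
  have hlogN : 0 < Real.log N := Real.log_pos (by linarith)
  set S := (range w).filter (fun p => p.Prime ∧ 7 ≤ p) with hS
  have hSp : ∀ p ∈ S, p.Prime ∧ p < w := by
    intro p hp
    rw [hS, Finset.mem_filter, Finset.mem_range] at hp
    exact ⟨hp.2.1, hp.1⟩
  have hS7 : ∀ p ∈ S, 7 ≤ p := fun p hp => (Finset.mem_filter.1 hp).2.2
  -- the sieve
  have hdata : DataK 4 w S (fun p => (cnt (P4 h) p : ℝ) / p) := by
    refine ⟨by omega, fun p hp => (hSp p hp).1, fun p hp => (hSp p hp).2,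
      fun p => by positivity, ?_, ?_⟩
    · intro p hp
      have h1 : (cnt (P4 h) p : ℝ) ≤ 4 := by exact_mod_cast (cnt_P4 (hSp p hp).1 (hS7 p hp) h).1
      have h2 : (7:ℝ) ≤ p := by exact_mod_cast hS7 p hp
      rw [div_le_iff₀ (by linarith)]
      linarith
    · intro p hp
      apply div_le_div_of_nonneg_right _ (by positivity)
      exact_mod_cast (cnt_P4 (hSp p hp).1 (hS7 p hp) h).1
  have hsieve := sieveK_count (P4 h) (P4_per h) hdata (fun p hp =>
    (cnt_P4 (hSp p hp).1 (hS7 p hp) h).1.trans (by have := hS7 p hp; omega)) 0 N 61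
  -- splitting T
  set T1 := T.filter (fun k : ℕ => k < w) with hT1
  set T2 := T.filter (fun k : ℕ => (k : ℤ) + h < w) with hT2
  set T3 := T.filter (fun k : ℕ => w ≤ k ∧ (w : ℤ) ≤ (k : ℤ) + h) with hT3
  have hTsub : T ⊆ T1 ∪ (T2 ∪ T3) := by
    intro n hn
    rw [Finset.mem_union, Finset.mem_union, hT1, hT2, hT3, Finset.mem_filter, Finset.mem_filter,
      Finset.mem_filter]
    by_cases h1 : n < w
    · left; exact ⟨hn, h1⟩
    · by_cases h2 : (n : ℤ) + h < w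
      · right; left; exact ⟨hn, h2⟩
      · right; right; exact ⟨hn, by omega, by omega⟩
  have hc1 : (T1.card : ℝ) ≤ w := by
    have : T1 ⊆ range w := by
      intro n hn
      rw [Finset.mem_range]
      exact (Finset.mem_filter.1 hn).2
    have := Finset.card_le_card this
    rw [Finset.card_range] at this
    exact_mod_cast this
  have hc2 : (T2.card : ℝ) ≤ w := by
    have h1 : (T2.image (fun n : ℕ => (n : ℤ) + h)).card = T2.card := by
      apply Finset.card_image_of_injective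
      intro a b hab
      simp only at hab
      omega
    have h2 : T2.image (fun n : ℕ => (n : ℤ) + h) ⊆ Finset.Ico (0:ℤ) w := by
      intro x hx
      obtain ⟨n, hn, rfl⟩ := Finset.mem_image.1 hx
      obtain ⟨hnT, hlt⟩ := Finset.mem_filter.1 hn
      obtain ⟨k', hk1, hk2, _⟩ := (hT n hnT).2.2.2.2
      rw [Finset.mem_Ico]
      refine ⟨?_, hlt⟩
      omega
    have h3 := Finset.card_le_card h2
    rw [h1, Int.card_Ico, sub_zero, Int.toNat_natCast] at h3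
    exact_mod_cast h3
  have hc3 : (T3.card : ℝ) ≤ (((Finset.Ioc (0:ℤ) (0 + N)).filter (fun n => ∀ p ∈ S,
        ¬ P4 h p n)).card : ℝ) := by
    have h1 : (T3.image (fun n : ℕ => (n : ℤ))).card = T3.card :=
      Finset.card_image_of_injective _ Nat.cast_injective
    rw [← h1]
    have h2 : T3.image (fun n : ℕ => (n : ℤ)) ⊆ (Finset.Ioc (0:ℤ) (0 + N)).filter
        (fun n => ∀ p ∈ S, ¬ P4 h p n) := by
      intro x hx
      obtain ⟨n, hn, rfl⟩ := Finset.mem_image.1 hx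
      obtain ⟨hnT, hwn, hwm⟩ := Finset.mem_filter.1 hn
      obtain ⟨hn1, hnN, hnp1, hnp2, k', hk1, hk2, hkp1, hkp2⟩ := hT n hnT
      rw [Finset.mem_filter, Finset.mem_Ioc]
      refine ⟨⟨by exact_mod_cast hn1, by simpa using hnN⟩, ?_⟩
      intro p hp hor
      obtain ⟨hpp, hpw⟩ := hSp p hp
      have e1 : 6 * (n:ℤ) + (-1) = ((6 * n - 1 : ℕ) : ℤ) := by omega
      have e2 : 6 * (n:ℤ) + 1 = ((6 * n + 1 : ℕ) : ℤ) := by omega
      have e3 : 6 * (n:ℤ) + (6 * h - 1) = ((6 * k' - 1 : ℕ) : ℤ) := by omega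
      have e4 : 6 * (n:ℤ) + (6 * h + 1) = ((6 * k' + 1 : ℕ) : ℤ) := by omega
      unfold P4 at hor
      rw [e1, e2, e3, e4] at hor
      rcases hor with h | h | h | h
      · have h4 : p ∣ 6 * n - 1 := by exact_mod_cast h
        have := (Nat.prime_dvd_prime_iff_eq hpp hnp1).1 h4
        omega
      · have h4 : p ∣ 6 * n + 1 := by exact_mod_cast h
        have := (Nat.prime_dvd_prime_iff_eq hpp hnp2).1 h4
        omega
      · have h4 : p ∣ 6 * k' - 1 := by exact_mod_cast h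
        have := (Nat.prime_dvd_prime_iff_eq hpp hkp1).1 h4
        omega
      · have h4 : p ∣ 6 * k' + 1 := by exact_mod_cast h
        have := (Nat.prime_dvd_prime_iff_eq hpp hkp2).1 h4
        omega
    exact_mod_cast Finset.card_le_card h2
  have hcard : (T.card : ℝ) ≤ w + (w + T3.card) := by
    have h1 := Finset.card_le_card hTsub
    have h2 := Finset.card_union_le T1 (T2 ∪ T3)
    have h3 := Finset.card_union_le T2 T3
    have h4 : (T.card : ℝ) ≤ T1.card + (T2.card + T3.card) := by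
      exact_mod_cast h1.trans (h2.trans (by omega))
    linarith
  -- the product
  have hlogw : Real.log N / 1200 ≤ Real.log w := log_lev_ge (by omega)
  have hlogw0 : 0 < Real.log w := Real.log_pos (by exact_mod_cast (by omega : 1 < w))
  have hMM := MM_ge_one y
  have hTT := TT'_ge_one y ⌊Real.log N⌋₊ h
  have hprod : ∏ p ∈ S, (1 - (cnt (P4 h) p : ℝ) / p)
      ≤ (1200 / c0 / Real.log N) ^ 4 * (MM y ^ 2 * TT' y ⌊Real.log N⌋₊ h * Real.exp 12) := by
    have h1 : ∏ p ∈ S, (1 - (cnt (P4 h) p : ℝ) / p)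
        ≤ ∏ p ∈ S, ((1 - (1:ℝ) / p) ^ 4
          * (w1 y p * w2 y ⌊Real.log N⌋₊ h p * w3 ⌊Real.log N⌋₊ h p)) := by
      apply Finset.prod_le_prod
      · intro p hp
        have h2 : (cnt (P4 h) p : ℝ) / p ≤ 2 / 3 := hdata.le p hp
        linarith
      · intro p hp
        exact ptw (hSp p hp).1 (hS7 p hp) h y _
    refine h1.trans ?_
    rw [Finset.prod_mul_distrib, Finset.prod_mul_distrib, Finset.prod_mul_distrib,
      Finset.prod_pow]
    have h2 := prod_S_le w 7 (by omega) S hS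
    rw [← hc0] at h2
    have h3 : 0 ≤ ∏ p ∈ S, (1 - (1:ℝ) / p) :=
      Finset.prod_nonneg (fun p hp => (one_sub_inv_pos (hSp p hp).1).le)
    have h4 : 1 / Real.log w ≤ 1200 / Real.log N := by
      rw [div_le_div_iff₀ hlogw0 hlogN]
      linarith
    have h5 : ∏ p ∈ S, (1 - (1:ℝ) / p) ≤ 1200 / c0 / Real.log N := by
      calc ∏ p ∈ S, (1 - (1:ℝ) / p) = (c0 * ∏ p ∈ S, (1 - (1:ℝ) / p)) / c0 := by
            field_simp
        _ ≤ (1200 / Real.log N) / c0 := by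
            apply div_le_div_of_nonneg_right (h2.trans h4) hc0pos.le
        _ = 1200 / c0 / Real.log N := by ring
    have h6 := prod_w1 y w S hSp
    have h7 := prod_w2 y ⌊Real.log N⌋₊ w h S hSp
    have h8 := prod_w3 hN9 hh0 hhN w S hSp hS7
    have g1 : 0 ≤ ∏ p ∈ S, w1 y p := Finset.prod_nonneg (fun p hp =>
      zero_le_one.trans (w1_ge (hSp p hp).1))
    have g2 : 0 ≤ ∏ p ∈ S, w2 y ⌊Real.log N⌋₊ h p := Finset.prod_nonneg (fun p hp =>
      zero_le_one.trans (w2_ge _ _ _ _))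
    have g3 : 0 ≤ ∏ p ∈ S, w3 ⌊Real.log N⌋₊ h p := Finset.prod_nonneg (fun p hp =>
      zero_le_one.trans (w3_ge _ _ _))
    apply mul_le_mul (pow_le_pow_left₀ h3 h5 4) _ (by positivity) (by positivity)
    apply mul_le_mul _ h8 g3 (by positivity)
    exact mul_le_mul h6 h7 g2 (by positivity)
  have hS3 : (T3.card : ℝ) ≤ N * ((1200 / c0 / Real.log N) ^ 4
      * (MM y ^ 2 * TT' y ⌊Real.log N⌋₊ h * Real.exp 12)) * 3 + (w:ℝ) ^ 500 := by
    have e2 : (N : ℝ) * (∏ p ∈ S, (1 - (cnt (P4 h) p : ℝ) / p)) * Real.exp (epsK 4 61)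
        ≤ N * ((1200 / c0 / Real.log N) ^ 4
      * (MM y ^ 2 * TT' y ⌊Real.log N⌋₊ h * Real.exp 12)) * 3 := by
      apply mul_le_mul _ exp_epsK_61 (Real.exp_pos _).le (by positivity)
      exact mul_le_mul_of_nonneg_left hprod (by positivity)
    exact hc3.trans (hsieve.trans (add_le_add e2 (le_of_eq (by norm_num))))
  have hws : (w : ℝ) ≤ (w:ℝ) ^ 500 := by
    have : (1:ℝ) ≤ w := by exact_mod_cast (by omega : 1 ≤ w)
    exact le_self_pow₀ this (by norm_num)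
  have h500 := lev500 (N := N) (by omega)
  rw [← hwdef] at h500
  have h501 : (w:ℝ) ^ 500 ≤ 331776 * N / (Real.log N) ^ 4 := by
    rw [le_div_iff₀ (by positivity)]
    exact h500
  have hMT : 1 ≤ MM y ^ 2 * TT' y ⌊Real.log N⌋₊ h := by
    have : 1 ≤ MM y ^ 2 := one_le_pow₀ hMM
    nlinarith
  calc (T.card : ℝ) ≤ 3 * (w:ℝ) ^ 500 + N * ((1200 / c0 / Real.log N) ^ 4
      * (MM y ^ 2 * TT' y ⌊Real.log N⌋₊ h * Real.exp 12)) * 3 := by linarith
    _ ≤ 3 * (331776 * N / (Real.log N) ^ 4) * (MM y ^ 2 * TT' y ⌊Real.log N⌋₊ h)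
        + N * ((1200 / c0 / Real.log N) ^ 4
      * (MM y ^ 2 * TT' y ⌊Real.log N⌋₊ h * Real.exp 12)) * 3 := by
        apply add_le_add _ le_rfl
        calc 3 * (w:ℝ) ^ 500 ≤ 3 * (331776 * N / (Real.log N) ^ 4) := by linarith
          _ = 3 * (331776 * N / (Real.log N) ^ 4) * 1 := by ring
          _ ≤ _ := mul_le_mul_of_nonneg_left hMT (by positivity)
    _ = _ := by
        field_simp
        ring

end Pool.Agent.Helper20_Rom
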